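import Pool.Agent.TH56.CL.Fin

/-!
# Range relaxed bipartite labellings of trees
-/

set_option autoImplicit false

namespace Pool.Agent.TH56.CL

open Finset Pool.Agent.TH56.CT Pool.Agent.TH56.CT.SupAux

/-- a tree has an injective labelling with distinct edge differences and labels at most
`m + 2 (L - 2) min (L - 1, 30)`, in which one colour class is below the other one -/
theorem exists_relaxed {V : Type} [Fintype V] {T : SimpleGraph V} (hT : T.IsTree)
    (h1 : 1 ≤ T.edgeSet.ncard) (col : V → Bool) (hcol : ∀ u v, T.Adj u v → col u ≠ col v) :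
    ∃ (M : ℕ) (b : Bool) (θ : ℕ) (f : V → ℕ), Function.Injective f ∧ (∀ x, f x ≤ M) ∧ θ ≤ M + 1 ∧
      (∀ x, col x = b ↔ f x < θ) ∧
      (∀ x y x' y', T.Adj x y → T.Adj x' y' →
        Int.natAbs ((f x : ℤ) - (f y : ℤ)) = Int.natAbs ((f x' : ℤ) - (f y' : ℤ)) →
        s(x, y) = s(x', y')) ∧
      M ≤ T.edgeSet.ncard + 2 * ({x : V | 2 ≤ (T.neighborSet x).ncard ∧
        {y : V | T.Adj x y ∧ 2 ≤ (T.neighborSet y).ncard}.ncard ≤ 1}.ncard - 2) *
        min ({x : V | 2 ≤ (T.neighborSet x).ncard ∧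
          {y : V | T.Adj x y ∧ 2 ≤ (T.neighborSet y).ncard}.ncard ≤ 1}.ncard - 1) 30 := by
  classical
  obtain ⟨v, p, Js, M, c, s, hE, hG, hinj, hsurj, hadj, hM⟩ := exists_good hT h1
  set m : ℕ := T.edgeSet.ncard with hm
  choose idx hidx1 hidx2 using hsurj
  have hs : ∀ i ≤ m, s i ≤ M := fun i hi => s_le hG hi
  have hvidx : ∀ i ≤ m, idx (v i) = i := fun i hi => hinj _ _ (hidx1 _) hi (hidx2 _)
  have hidxinj : ∀ x y, idx x = idx y → x = y := fun x y h => by
    rw [← hidx2 x, ← hidx2 y, h]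
  -- the number of an edge
  have hedge : ∀ x y, T.Adj x y → ∃ i, 1 ≤ i ∧ i ≤ m ∧ s(x, y) = s(v i, v (p i)) ∧
      c (s (idx x)) ≠ c (s (idx y)) ∧
      rk c (s (idx x)) + rk c (s (idx y)) = rk c (s i) + rk c (s (p i)) := by
    intro x y hxy
    obtain ⟨i, hi1, hi2, hi3⟩ := hadj x y hxy
    have hpi : p i ≤ m := (hE.lt i hi1 hi2).le.trans hi2
    have hc := hG.cls i hi1 hi2
    refine ⟨i, hi1, hi2, ?_⟩
    rcases hi3 with ⟨ha, hb⟩ | ⟨ha, hb⟩
    · rw [← ha, ← hb, hvidx i hi2, hvidx _ hpi]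
      exact ⟨rfl, hc, rfl⟩
    · rw [← ha, ← hb, hvidx i hi2, hvidx _ hpi]
      exact ⟨Sym2.eq_swap, hc.symm, Nat.add_comm _ _⟩
  -- the difference numbers of the edges are different
  have hEi : ∀ i, 1 ≤ i → i ≤ m → (i ∉ Js ∧ rk c (s i) + rk c (s (p i)) + 1 = s i) ∨
      (i ∈ Js ∧ rk c (s i) + rk c (s (p i)) + 1 = sg c s p i) := by
    intro i hi1 hi2
    by_cases hJ : i ∈ Js
    · exact Or.inr ⟨hJ, rfl⟩
    · have hlt := hE.lt i hi1 hi2
      have h2 := rk_base (hG.mono (p i) i hlt hi2) (hG.cls i hi1 hi2).symm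
        (fun u hu1 hu2 => hG.reg i hi1 hi2 hJ u hu1 hu2)
      exact Or.inl ⟨hJ, by omega⟩
  have hEinj : ∀ i j, 1 ≤ i → i ≤ m → 1 ≤ j → j ≤ m →
      rk c (s i) + rk c (s (p i)) = rk c (s j) + rk c (s (p j)) → i = j := by
    intro i j hi1 hi2 hj1 hj2 h
    rcases hEi i hi1 hi2 with ⟨h2, h3⟩ | ⟨h2, h3⟩ <;> rcases hEi j hj1 hj2 with ⟨h4, h5⟩ | ⟨h4, h5⟩
    · exact s_ne hG hi2 hj2 (by omega)
    · exfalso
      rcases hG.hole j h4 with ⟨l, h6, h7⟩ | ⟨h6, _⟩
      · have h8 : s i = s l := by omega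
        rw [s_ne hG hi2 (hE.sub l h6).2 h8] at h2
        exact h2 h6
      · exact h6 i hi2 (by omega)
    · exfalso
      rcases hG.hole i h2 with ⟨l, h6, h7⟩ | ⟨h6, _⟩
      · have h8 : s j = s l := by omega
        rw [s_ne hG hj2 (hE.sub l h6).2 h8] at h4
        exact h4 h6
      · exact h6 j hj2 (by omega)
    · exact hG.inj i h2 j h4 (by omega)
  -- the colours
  obtain ⟨x0⟩ : Nonempty V := hT.1.nonempty
  have hcolor : ∀ x, (col x = col x0 ↔ c (s (idx x)) = c (s (idx x0))) := by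
    intro x
    obtain ⟨w⟩ := hT.1.preconnected x x0
    induction w with
    | nil => simp
    | @cons a b z hab w ih =>
      have h2 := hcol a b hab
      obtain ⟨i, -, -, -, h3, -⟩ := hedge a b hab
      revert h2 h3 ih
      cases col a <;> cases col b <;> cases col z <;> cases c (s (idx a)) <;>
        cases c (s (idx b)) <;> cases c (s (idx z)) <;> simp
  refine ⟨M, if c (s (idx x0)) = false then col x0 else !col x0, cn c false (M + 1),
    fun x => lab M c (s (idx x)), ?_, ?_, ?_, ?_, ?_, hM⟩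
  · intro x y hxy
    exact hidxinj x y (s_ne hG (hidx1 x) (hidx1 y) (lab_inj (hs _ (hidx1 x)) (hs _ (hidx1 y)) hxy))
  · exact fun x => lab_le (hs _ (hidx1 x))
  · have := SupAux.cn_add (c := c) (M + 1)
    omega
  · intro x
    have h2 := hcolor x
    have h3 : c (s (idx x)) = false ↔ lab M c (s (idx x)) < cn c false (M + 1) := by
      have h4 := hs _ (hidx1 x)
      have h5 := SupAux.cn_lt (c := c) (show s (idx x) < M + 1 by omega)
      have h6 := SupAux.cn_add (c := c) (M + 1)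
      unfold lab rk
      cases h7 : c (s (idx x))
      · rw [h7] at h5
        simp only [if_true, true_iff]
        omega
      · rw [h7] at h5
        simp only [Bool.true_eq_false, if_false, false_iff, not_lt]
        omega
    rw [← h3]
    revert h2
    cases col x <;> cases col x0 <;> cases c (s (idx x)) <;> cases c (s (idx x0)) <;> simp
  · intro x y x' y' hxy hxy' hd
    obtain ⟨i, hi1, hi2, hi3, hi4, hi5⟩ := hedge x y hxy
    obtain ⟨j, hj1, hj2, hj3, hj4, hj5⟩ := hedge x' y' hxy'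
    have h2 := lab_diff (hs _ (hidx1 x)) (hs _ (hidx1 y)) hi4
    have h3 := lab_diff (hs _ (hidx1 x')) (hs _ (hidx1 y')) hj4
    have h4 := rk_le' (hs _ (hidx1 x)) (hs _ (hidx1 y)) hi4
    have h5 := rk_le' (hs _ (hidx1 x')) (hs _ (hidx1 y')) hj4
    have h6 : i = j := by
      apply hEinj i j hi1 hi2 hj1 hj2
      simp only at hd
      rw [h2, h3] at hd
      omega
    rw [hi3, hj3, h6]

/-- the colour class which comes first can be chosen -/
theorem exists_relaxed' {V : Type} [Fintype V] {T : SimpleGraph V} (hT : T.IsTree)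
    (h1 : 1 ≤ T.edgeSet.ncard) (col : V → Bool) (hcol : ∀ u v, T.Adj u v → col u ≠ col v)
    (b : Bool) :
    ∃ (M : ℕ) (θ : ℕ) (f : V → ℕ), Function.Injective f ∧ (∀ x, f x ≤ M) ∧
      (∀ x, col x = b ↔ f x < θ) ∧
      (∀ x y x' y', T.Adj x y → T.Adj x' y' →
        Int.natAbs ((f x : ℤ) - (f y : ℤ)) = Int.natAbs ((f x' : ℤ) - (f y' : ℤ)) →
        s(x, y) = s(x', y')) ∧
      M ≤ T.edgeSet.ncard + 2 * ({x : V | 2 ≤ (T.neighborSet x).ncard ∧
        {y : V | T.Adj x y ∧ 2 ≤ (T.neighborSet y).ncard}.ncard ≤ 1}.ncard - 2) *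
        min ({x : V | 2 ≤ (T.neighborSet x).ncard ∧
          {y : V | T.Adj x y ∧ 2 ≤ (T.neighborSet y).ncard}.ncard ≤ 1}.ncard - 1) 30 := by
  obtain ⟨M, b', θ, f, f1, f2, f3, f4, f5, f6⟩ := exists_relaxed hT h1 col hcol
  by_cases hb : b = b'
  · subst hb
    exact ⟨M, θ, f, f1, f2, f4, f5, f6⟩
  · refine ⟨M, M + 1 - θ, fun x => M - f x, ?_, fun x => Nat.sub_le _ _, ?_, ?_, f6⟩
    · intro x y hxy
      have h2 := f2 x
      have h3 := f2 y
      simp only at hxy
      exact f1 (by omega)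
    · intro x
      have h2 := f4 x
      have h3 := f2 x
      have h4 : (col x = b ↔ ¬ col x = b') := by
        revert hb
        cases col x <;> cases b <;> cases b' <;> simp
      rw [h4, h2]
      simp only
      omega
    · intro x y x' y' hxy hxy' hd
      apply f5 x y x' y' hxy hxy'
      have h2 := f2 x
      have h3 := f2 y
      have h4 := f2 x'
      have h5 := f2 y'
      simp only at hd
      omega

end Pool.Agent.TH56.CL
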