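import Pool.Agent.TH56.CL.Def

/-!
# Depth-first orders give enumerations with levels (helper574 for helper56)
-/

set_option autoImplicit false

namespace Pool.Agent.TH56.CL

open Finset Pool.Agent.TH56.CT

namespace Enu

variable {m : ℕ} {p w : ℕ → ℕ}

lemma one_le_parent (h : Ord m p w) {u : ℕ} (h1 : 1 ≤ u) (h2 : u ≤ m) : 1 ≤ w (p u) := by
  have h3 := h.lt u h1 h2
  rw [h.w1 (p u) (by omega) ⟨u, h1, h2, rfl⟩]
  exact le_max_left _ _

lemma mem_jmp {k : ℕ} : k ∈ Jmp m p w ↔ (1 ≤ k ∧ k ≤ m) ∧ 1 ≤ w k ∧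
    ((Ico 1 k).filter (fun l => p l = p k ∧ 1 ≤ w l)).Nonempty := by
  unfold Jmp
  rw [mem_filter, mem_Icc]

lemma sib (h : Ord m p w) {i : ℕ} (h1 : 1 ≤ i) (h2 : i ≤ m) (hi : i ∉ Jmp m p w) :
    ∀ u, p i < u → u < i → p u = p i ∧ w u = 0 := by
  intro u
  induction u using Nat.strong_induction_on with
  | _ u ih =>
    intro hu1 hu2
    have h3 := h.lam i h1 h2 u hu1 hu2
    have h4 := h.lt u (by omega) (by omega)
    have h5 : p u = p i := by
      by_contra hne
      have h6 := (ih (p u) h4 (by omega) (by omega)).2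
      have h7 := one_le_parent h (u := u) (by omega) (by omega)
      omega
    refine ⟨h5, ?_⟩
    by_contra hw
    apply hi
    rw [mem_jmp]
    have h6 := h.srt u i (by omega) hu2 h2 h5
    refine ⟨⟨h1, h2⟩, by omega, ⟨u, ?_⟩⟩
    rw [mem_filter, mem_Ico]
    exact ⟨⟨by omega, hu2⟩, h5, by omega⟩

lemma anc (h : Ord m p w) {k : ℕ} (h1 : 1 ≤ k) (h2 : k ≤ m) :
    ∀ u, p k < u → u < k → w u ≤ ((Ico 1 k).filter (fun l => p l = p k)).sup w := by
  intro u
  induction u using Nat.strong_induction_on with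
  | _ u ih =>
    intro hu1 hu2
    have h3 := h.lam k h1 h2 u hu1 hu2
    have h4 := h.lt u (by omega) (by omega)
    by_cases h5 : p u = p k
    · refine le_sup (f := w) ?_
      rw [mem_filter, mem_Ico]
      exact ⟨⟨by omega, hu2⟩, h5⟩
    · have h6 := ih (p u) h4 (by omega) (by omega)
      refine le_trans ?_ h6
      rw [h.w1 (p u) (by omega) ⟨u, by omega, by omega, rfl⟩]
      refine le_trans ?_ (le_max_right _ _)
      refine single_le_sum (f := w) (fun _ _ => Nat.zero_le _) ?_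
      rw [mem_filter, mem_Icc]
      exact ⟨⟨by omega, by omega⟩, rfl⟩

lemma lev (h : Ord m p w) {k l : ℕ} (hk : k ∈ Jmp m p w) (hl : l ∈ Jmp m p w) (h1 : p k < p l)
    (h2 : p l < k) : lvl p w l < lvl p w k := by
  rw [mem_jmp] at hk hl
  obtain ⟨⟨hk1, hk2⟩, -, -⟩ := hk
  obtain ⟨⟨hl1, hl2⟩, -, ⟨l0, hl0⟩⟩ := hl
  rw [mem_filter, mem_Ico] at hl0
  have ha := anc h hk1 hk2 (p l) h1 h2
  have hmem : l0 ∈ (Ico 1 l).filter (fun l' => p l' = p l) := by
    rw [mem_filter, mem_Ico]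
    exact ⟨hl0.1, hl0.2.1⟩
  obtain ⟨l', hl', hB⟩ := exists_mem_eq_sup _ ⟨l0, hmem⟩ w
  have hB1 : 1 ≤ ((Ico 1 l).filter (fun l' => p l' = p l)).sup w :=
    hl0.2.2.trans (le_sup (f := w) hmem)
  rw [mem_filter, mem_Ico] at hl'
  have h3 := h.srt l' l hl'.1.1 hl'.1.2 hl2 hl'.2
  have h4 : w l' + w l ≤ w (p l) := by
    have h5 := h.lt l hl1 hl2
    rw [h.w1 (p l) (by omega) ⟨l, hl1, hl2, rfl⟩]
    refine le_trans ?_ (le_max_right _ _)
    have h6 : ({l', l} : Finset ℕ) ⊆ (Icc 1 m).filter (fun k => p k = p l) := by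
      intro x hx
      rw [mem_insert, mem_singleton] at hx
      rw [mem_filter, mem_Icc]
      rcases hx with rfl | rfl
      · exact ⟨⟨hl'.1.1, by omega⟩, hl'.2⟩
      · exact ⟨⟨hl1, hl2⟩, rfl⟩
    have h7 := sum_le_sum_of_subset (f := w) h6
    rw [sum_pair (by omega)] at h7
    exact h7
  unfold lvl
  rw [← hB] at h3 h4
  set B := ((Ico 1 l).filter (fun l' => p l' = p l)).sup w with hBdef
  set A := ((Ico 1 k).filter (fun l' => p l' = p k)).sup w with hAdef
  have h8 : B * 2 ≤ A := by omega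
  have h9 := Nat.log_mul_base (b := 2) (n := B) (by omega) (by omega)
  have h10 := Nat.log_mono_right (b := 2) h8
  omega

end Enu

open Enu in
/-- Part E: depth-first orders give enumerations with levels -/
theorem enu : EnuStm := by
  intro m p w h
  refine ⟨⟨h.lt, fun k hk => (mem_jmp.1 hk).1, fun i h1 h2 hi => ?_⟩, ?_, ?_, ?_⟩
  · by_cases e : p i + 1 = i
    · exact Or.inl e
    · have h3 := h.lt i h1 h2
      obtain ⟨h4, h5⟩ := sib h h1 h2 hi (i - 1) (by omega) (by omega)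
      refine Or.inr ⟨by omega, fun hJ => ?_, h4.symm⟩
      have h6 := (mem_jmp.1 hJ).2.1
      omega
  · intro h1
    obtain ⟨x, hx⟩ := (mem_jmp.1 h1).2.2
    rw [mem_filter, mem_Ico] at hx
    omega
  · intro k hk l _ h1 h2
    have h3 := (mem_jmp.1 hk).1
    exact h.lam k h3.1 h3.2 l h1 h2
  · intro k hk l hl h1 h2
    exact lev h hk hl h1 h2

end Pool.Agent.TH56.CL
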