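import Pool.Agent.TH56.CL.Def
import Pool.Agent.H115R2.Assemble

/-!
# Roots and weights of a tree (part T; helper757, job 4055)
-/

set_option autoImplicit false

namespace Pool.Agent.TH56.CL

open Finset Pool.Agent.H115R2

namespace RootAux

variable {V : Type} [Fintype V] [DecidableEq V]

/-- the children of `x` -/
def ch (r : V) (par : V → V) (x : V) : Finset V := univ.filter (fun v => v ≠ r ∧ par v = x)

theorem mem_ch {r : V} {par : V → V} {x v : V} : v ∈ ch r par x ↔ v ≠ r ∧ par v = x := by
  simp [ch]

/-- the weights, with a bound for the recursion -/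
def W (r : V) (par : V → V) : ℕ → V → ℕ
  | 0, _ => 0
  | n + 1, x => if (ch r par x).Nonempty then max 1 (∑ v ∈ ch r par x, W r par n v) else 0

theorem exists_w (r : V) (par : V → V) (d : V → ℕ) (hd : ∀ v, v ≠ r → d v = d (par v) + 1) :
    ∃ w : V → ℕ, (∀ x, ch r par x = ∅ → w x = 0) ∧
      ∀ x, (ch r par x).Nonempty → w x = max 1 (∑ v ∈ ch r par x, w v) := by
  obtain ⟨D, hD⟩ : ∃ D, ∀ x, d x ≤ D := ⟨univ.sup d, fun x => Finset.le_sup (mem_univ x)⟩
  refine ⟨fun x => W r par (D - d x) x, ?_, ?_⟩
  · intro x hx
    show W r par (D - d x) x = 0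
    cases h : D - d x with
    | zero => rfl
    | succ n =>
      unfold W
      rw [if_neg]
      rw [hx]
      simp
  · intro x hx
    obtain ⟨v0, hv0⟩ := hx
    obtain ⟨h1, h2⟩ := mem_ch.1 hv0
    have h3 := hd v0 h1
    rw [h2] at h3
    have h4 := hD v0
    obtain ⟨n, hn⟩ : ∃ n, D - d x = n + 1 := ⟨D - d x - 1, by omega⟩
    show W r par (D - d x) x = _
    rw [hn]
    show (if (ch r par x).Nonempty then max 1 (∑ v ∈ ch r par x, W r par n v) else 0) = _
    rw [if_pos ⟨v0, hv0⟩]
    congr 1
    refine Finset.sum_congr rfl fun v hv => ?_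
    obtain ⟨h5, h6⟩ := mem_ch.1 hv
    have h7 := hd v h5
    rw [h6] at h7
    have h8 := hD v
    have h9 : D - d v = n := by omega
    show W r par n v = W r par (D - d v) v
    rw [h9]

/-- the weight of the root -/
theorem w_root (r : V) (par : V → V) (w : V → ℕ) (h0 : ∀ x, ch r par x = ∅ → w x = 0)
    (h1 : ∀ x, (ch r par x).Nonempty → w x = max 1 (∑ v ∈ ch r par x, w v)) :
    w r = (univ.filter (fun x => (ch r par x).Nonempty ∧ ∀ v ∈ ch r par x, w v = 0)).card := by
  have h2 : ∀ x, w x = ∑ v ∈ ch r par x, w v +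
      if (ch r par x).Nonempty ∧ ∀ v ∈ ch r par x, w v = 0 then 1 else 0 := by
    intro x
    by_cases hx : (ch r par x).Nonempty
    · rw [h1 x hx]
      by_cases hz : ∀ v ∈ ch r par x, w v = 0
      · rw [if_pos ⟨hx, hz⟩, Finset.sum_eq_zero hz]
        rfl
      · rw [if_neg (fun h => hz h.2), add_zero]
        apply max_eq_right
        by_contra hc
        apply hz
        have h3 : ∑ v ∈ ch r par x, w v = 0 := by omega
        exact Finset.sum_eq_zero_iff.1 h3
    · have hx' := Finset.not_nonempty_iff_eq_empty.1 hx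
      rw [h0 x hx', hx', if_neg (fun h => by simpa using h.1)]
      simp
  have h3 : ∑ x, w x = ∑ x, ∑ v ∈ ch r par x, w v +
      (univ.filter (fun x => (ch r par x).Nonempty ∧ ∀ v ∈ ch r par x, w v = 0)).card := by
    rw [Finset.card_filter, ← Finset.sum_add_distrib]
    exact Finset.sum_congr rfl fun x _ => h2 x
  have h4 : ∑ x, ∑ v ∈ ch r par x, w v = ∑ v ∈ univ.filter (fun v => v ≠ r), w v := by
    rw [← Finset.sum_fiberwise_of_maps_to (s := univ.filter (fun v => v ≠ r)) (t := univ)
      (g := par) (fun _ _ => mem_univ _)]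
    refine Finset.sum_congr rfl fun x _ => ?_
    congr 1
    ext v
    simp [ch]
  have h5 : ∑ x, w x = w r + ∑ v ∈ univ.filter (fun v => v ≠ r), w v := by
    rw [← Finset.add_sum_erase univ w (mem_univ r)]
    congr 1
    refine Finset.sum_congr ?_ fun _ _ => rfl
    ext v
    simp
  omega

theorem exists_end (T : SimpleGraph V) (hT : T.IsTree) (a : V)
    (ha : 2 ≤ (T.neighborSet a).ncard) :
    ∃ r : V, 2 ≤ (T.neighborSet r).ncard ∧
      {y : V | T.Adj r y ∧ 2 ≤ (T.neighborSet y).ncard}.ncard ≤ 1 := by
  obtain ⟨par, hp⟩ := exists_root T hT a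
  obtain ⟨x, hx, hmax⟩ := Finset.exists_max_image
    (univ.filter (fun x => 2 ≤ (T.neighborSet x).ncard)) (fun x => T.dist a x)
    ⟨a, by simpa using ha⟩
  rw [Finset.mem_filter] at hx
  refine ⟨x, hx.2, ?_⟩
  have h1 : {y : V | T.Adj x y ∧ 2 ≤ (T.neighborSet y).ncard} ⊆ {par x} := by
    rintro y ⟨h2, h3⟩
    rcases hp.cov x y h2 with h4 | h4
    · exact h4.2.symm
    · exfalso
      have h5 := hp.dist y h4.1
      rw [h4.2] at h5
      have h6 := hmax y (by simpa using h3)
      omega
  exact (Set.ncard_le_ncard h1 (Set.finite_singleton _)).trans (by rw [Set.ncard_singleton])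

omit [DecidableEq V] in
theorem two_le_ncard {s : Set V} {a b : V} (ha : a ∈ s) (hb : b ∈ s) (hab : a ≠ b) :
    2 ≤ s.ncard := by
  rw [← Set.ncard_pair hab]
  apply Set.ncard_le_ncard _ (Set.toFinite _)
  intro x hx
  rcases hx with rfl | rfl
  · exact ha
  · exact hb

theorem mem_end (T : SimpleGraph V) (r : V) (par : V → V) (hp : Root T r par) (x : V)
    (hx : x ≠ r) (hc : (ch r par x).Nonempty) (hcc : ∀ v ∈ ch r par x, ch r par v = ∅) :
    2 ≤ (T.neighborSet x).ncard ∧
      {y : V | T.Adj x y ∧ 2 ≤ (T.neighborSet y).ncard}.ncard ≤ 1 := by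
  constructor
  · obtain ⟨v, hv⟩ := hc
    obtain ⟨h1, h2⟩ := mem_ch.1 hv
    refine two_le_ncard (a := par x) (b := v) (hp.adj x hx).symm ?_ ?_
    · have := hp.adj v h1
      rw [h2] at this
      exact this
    · intro h
      have h3 := hp.dist v h1
      have h4 := hp.dist x hx
      rw [h2] at h3
      rw [h] at h4
      omega
  · have h1 : {y : V | T.Adj x y ∧ 2 ≤ (T.neighborSet y).ncard} ⊆ {par x} := by
      rintro y ⟨h2, h3⟩
      rcases hp.cov x y h2 with h4 | h4
      · exact h4.2.symm
      · exfalso
        have h5 : y ∈ ch r par x := mem_ch.2 h4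
        have h6 := hcc y h5
        have h7 : T.neighborSet y ⊆ {x} := by
          intro z hz
          rcases hp.cov y z hz with h8 | h8
          · rw [Set.mem_singleton_iff, ← h8.2, h4.2]
          · exfalso
            have h9 : z ∈ ch r par y := mem_ch.2 h8
            rw [h6] at h9
            simp at h9
        have h8 := Set.ncard_le_ncard h7 (Set.finite_singleton _)
        rw [Set.ncard_singleton] at h8
        omega
    exact (Set.ncard_le_ncard h1 (Set.finite_singleton _)).trans (by rw [Set.ncard_singleton])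

end RootAux

open RootAux

theorem root : RootStm := by
  classical
  intro V _ _ T hT hm
  -- the choice of the root
  obtain ⟨r, hr⟩ : ∃ r : V, (∀ a, ¬ 2 ≤ (T.neighborSet a).ncard) ∨
      (2 ≤ (T.neighborSet r).ncard ∧
        {y : V | T.Adj r y ∧ 2 ≤ (T.neighborSet y).ncard}.ncard ≤ 1) := by
    by_cases h : ∃ a, 2 ≤ (T.neighborSet a).ncard
    · obtain ⟨a, ha⟩ := h
      obtain ⟨r, h1, h2⟩ := exists_end T hT a ha
      exact ⟨r, Or.inr ⟨h1, h2⟩⟩
    · push Not at h
      obtain ⟨r⟩ := hT.1.nonempty
      exact ⟨r, Or.inl fun a ha => absurd ha (not_le.2 (h a))⟩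
  obtain ⟨par0, hp0⟩ := exists_root T hT r
  obtain ⟨par, hpar⟩ : ∃ par : V → V, par = fun x => if x = r then r else par0 x := ⟨_, rfl⟩
  have hpr : par r = r := by rw [hpar]; simp
  have hpx : ∀ x, x ≠ r → par x = par0 x := by
    intro x hx
    rw [hpar]
    simp [hx]
  have hp : Root T r par := by
    refine ⟨?_, ?_, ?_⟩
    · intro x hx
      rw [hpx x hx]
      exact hp0.adj x hx
    · intro x hx
      rw [hpx x hx]
      exact hp0.dist x hx
    · intro a b hab
      rcases hp0.cov a b hab with h | h
      · left
        exact ⟨h.1, by rw [hpx a h.1]; exact h.2⟩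
      · right
        exact ⟨h.1, by rw [hpx b h.1]; exact h.2⟩
  obtain ⟨w, hw0, hw1⟩ := exists_w r par (fun x => T.dist r x) hp.dist
  refine ⟨r, par, w, hpr, ?_, ?_, hp.cov, ?_, ?_, ?_⟩
  · have key : ∀ n, ∀ v, T.dist r v = n → ∃ n, par^[n] v = r := by
      intro n
      induction n with
      | zero =>
        intro v hv
        refine ⟨0, ?_⟩
        by_contra hne
        have := hp.dist v hne
        omega
      | succ n ih =>
        intro v hv
        have hne : v ≠ r := by
          rintro rfl
          rw [SimpleGraph.dist_self] at hv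
          omega
        have h1 := hp.dist v hne
        obtain ⟨k, hk⟩ := ih (par v) (by omega)
        exact ⟨k + 1, by rw [Function.iterate_succ_apply]; exact hk⟩
    intro v
    exact key _ v rfl
  · intro v hv
    exact (hp.adj v hv).symm
  · intro x hx
    apply hw0
    rw [Finset.eq_empty_iff_forall_notMem]
    intro v hv
    obtain ⟨h1, h2⟩ := mem_ch.1 hv
    exact hx v h1 h2
  · rintro x ⟨v, h1, h2⟩
    exact hw1 x ⟨v, mem_ch.2 ⟨h1, h2⟩⟩
  · -- the root has a child
    have hch : (ch r par r).Nonempty := by
      have hv : ∃ v, v ≠ r := by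
        have h1 : T.edgeSet.Nonempty := by
          rw [← Set.ncard_pos (Set.toFinite _)]
          exact hm
        obtain ⟨e, he⟩ := h1
        induction e using Sym2.ind with
        | _ a b =>
          rw [SimpleGraph.mem_edgeSet] at he
          by_cases ha : a = r
          · exact ⟨b, fun h => he.ne (ha.trans h.symm)⟩
          · exact ⟨a, ha⟩
      obtain ⟨v0, hv0⟩ := hv
      obtain ⟨v, hv, hmin⟩ := Finset.exists_min_image (univ.filter (fun v => v ≠ r))
        (fun v => T.dist r v) ⟨v0, by simpa using hv0⟩
      rw [Finset.mem_filter] at hv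
      refine ⟨v, mem_ch.2 ⟨hv.2, ?_⟩⟩
      by_contra hne
      have h1 := hmin (par v) (by simpa using hne)
      have h2 := hp.dist v hv.2
      omega
    have hwr := w_root r par w hw0 hw1
    by_cases h1 : w r = 1
    · exact Or.inl h1
    · right
      have h2 : 1 ≤ w r := by
        rw [hw1 r hch]
        exact le_max_left _ _
      have hex : ∃ v ∈ ch r par r, w v ≠ 0 := by
        by_contra hc
        push Not at hc
        apply h1
        rw [hw1 r hch, Finset.sum_eq_zero hc]
        rfl
      have hsub : ((insert r (univ.filter (fun x => (ch r par x).Nonempty ∧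
          ∀ v ∈ ch r par x, w v = 0)) : Finset V) : Set V) ⊆
          {x : V | 2 ≤ (T.neighborSet x).ncard ∧
            {y : V | T.Adj x y ∧ 2 ≤ (T.neighborSet y).ncard}.ncard ≤ 1} := by
        intro x hx
        rw [Finset.mem_coe, Finset.mem_insert] at hx
        by_cases hxr : x = r
        · rw [hxr]
          rcases hr with hr | hr
          · exfalso
            obtain ⟨v, hv, hwv⟩ := hex
            obtain ⟨h3, h4⟩ := mem_ch.1 hv
            have h5 : (ch r par v).Nonempty := by
              by_contra hc
              exact hwv (hw0 v (Finset.not_nonempty_iff_eq_empty.1 hc))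
            obtain ⟨u, hu⟩ := h5
            obtain ⟨h6, h7⟩ := mem_ch.1 hu
            apply hr v
            refine two_le_ncard (a := par v) (b := u) (hp.adj v h3).symm ?_ ?_
            · have := hp.adj u h6
              rw [h7] at this
              exact this
            · intro h
              have h8 := hp.dist u h6
              have h9 := hp.dist v h3
              rw [h7] at h8
              rw [h] at h9
              omega
          · exact hr
        · rcases hx with hx | hx
          · exact absurd hx hxr
          · rw [Finset.mem_filter] at hx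
            refine mem_end T r par hp x hxr hx.2.1 ?_
            intro v hv
            have h3 := hx.2.2 v hv
            by_contra hc
            have h4 := hw1 v (Finset.nonempty_iff_ne_empty.2 hc)
            have h5 : 1 ≤ max 1 (∑ u ∈ ch r par v, w u) := le_max_left _ _
            omega
      have h3 := Set.ncard_le_ncard hsub (Set.toFinite _)
      rw [Set.ncard_coe_finset, Finset.card_insert_of_notMem, ← hwr] at h3
      · exact h3
      · rw [Finset.mem_filter]
        rintro ⟨_, _, h4⟩
        obtain ⟨v, hv, hwv⟩ := hex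
        exact hwv (h4 v hv)

end Pool.Agent.TH56.CL
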