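import Pool.Agent.TH56.CL.Rlx

/-!
# Range relaxed bipartite labellings of trees: forms used in the applications
-/

set_option autoImplicit false

namespace Pool.Agent.TH56.CL

open Finset

theorem exists_col {V : Type} [Fintype V] {T : SimpleGraph V} (hT : T.IsTree) :
    ∃ col : V → Bool, ∀ u v, T.Adj u v → col u ≠ col v := by
  classical
  obtain ⟨C⟩ : T.Colorable 2 := hT.isBipartite
  refine ⟨fun v => decide (C v = 0), fun u v h => ?_⟩
  have h2 : C u ≠ C v := C.valid h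
  intro h3
  apply h2
  have h4 : ∀ a b : Fin 2, decide (a = 0) = decide (b = 0) → a = b := by decide
  exact h4 _ _ h3

theorem exists_bip {V : Type} [Fintype V] {T : SimpleGraph V} (hT : T.IsTree)
    (h1 : 1 ≤ T.edgeSet.ncard) (col : V → Bool) (hcol : ∀ u v, T.Adj u v → col u ≠ col v)
    (b : Bool) :
    ∃ (M : ℕ) (θ : ℕ) (f : V → ℕ), Function.Injective f ∧ (∀ x, f x ≤ M) ∧ 1 ≤ θ ∧ θ ≤ M ∧
      (∀ x, col x = b ↔ f x < θ) ∧
      (∀ x y, T.Adj x y → (f x < θ ∧ θ ≤ f y) ∨ (f y < θ ∧ θ ≤ f x)) ∧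
      (∀ x y x' y', T.Adj x y → T.Adj x' y' → f x < θ → f x' < θ →
        f y + f x' = f y' + f x → x = x' ∧ y = y') ∧
      M ≤ T.edgeSet.ncard + 2 * ({x : V | 2 ≤ (T.neighborSet x).ncard ∧
        {y : V | T.Adj x y ∧ 2 ≤ (T.neighborSet y).ncard}.ncard ≤ 1}.ncard - 2) *
        min ({x : V | 2 ≤ (T.neighborSet x).ncard ∧
          {y : V | T.Adj x y ∧ 2 ≤ (T.neighborSet y).ncard}.ncard ≤ 1}.ncard - 1) 30 := by
  classical
  obtain ⟨M, θ, f, f1, f2, f3, f4, f5⟩ := exists_relaxed' hT h1 col hcol b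
  have hadj : ∀ x y, T.Adj x y → (f x < θ ∧ θ ≤ f y) ∨ (f y < θ ∧ θ ≤ f x) := by
    intro x y hxy
    have h2 := hcol x y hxy
    have h3 := f3 x
    have h4 := f3 y
    by_cases h5 : f x < θ <;> by_cases h6 : f y < θ
    · exact absurd ((h3.2 h5).trans (h4.2 h6).symm) h2
    · exact Or.inl ⟨h5, not_lt.1 h6⟩
    · exact Or.inr ⟨h6, not_lt.1 h5⟩
    · exfalso
      have h7 : col x ≠ b := fun h => h5 (h3.1 h)
      have h8 : col y ≠ b := fun h => h6 (h4.1 h)
      revert h2 h7 h8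
      cases col x <;> cases col y <;> cases b <;> simp
  obtain ⟨x0, y0, h0⟩ : ∃ x y, T.Adj x y := by
    obtain ⟨e, he⟩ := (Set.ncard_pos (Set.toFinite _)).1 h1
    induction e using Sym2.ind with
    | _ x y => exact ⟨x, y, he⟩
  refine ⟨M, θ, f, f1, f2, ?_, ?_, f3, hadj, ?_, f5⟩
  · rcases hadj x0 y0 h0 with h | h <;> omega
  · have h2 := f2 x0
    have h3 := f2 y0
    rcases hadj x0 y0 h0 with h | h <;> omega
  · intro x y x' y' hxy hxy' hx hx' hd
    have h2 : θ ≤ f y := by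
      rcases hadj x y hxy with h | h <;> omega
    have h3 : θ ≤ f y' := by
      rcases hadj x' y' hxy' with h | h <;> omega
    have h4 := f4 x y x' y' hxy hxy' (by omega)
    rcases Sym2.eq_iff.1 h4 with h5 | h5
    · exact h5
    · exfalso
      rw [h5.1] at hx
      omega

end Pool.Agent.TH56.CL
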