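import Pool.Agent.TH56.CL.Def

/-!
# A linear bound for graceful supertrees: the cost of a depth-first order
-/

set_option autoImplicit false

namespace Pool.Agent.TH56.CL

open Finset Pool.Agent.TH56.CT

namespace Cst

/-- the potential -/
noncomputable def Psi (n : ℕ) : ℝ := 60 * √(n : ℝ)

theorem sqrt_key {a X Y : ℝ} (ha : 0 ≤ a) (hX : a ≤ X) (hY : a ≤ Y) :
    √(X + Y) + √a / 2 ≤ √X + √Y := by
  have hX0 : 0 ≤ X := ha.trans hX
  have hY0 : 0 ≤ Y := ha.trans hY
  have h1 : √a ≤ √X := Real.sqrt_le_sqrt hX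
  have h2 : √a ≤ √Y := Real.sqrt_le_sqrt hY
  have h0 : 0 ≤ √a := Real.sqrt_nonneg a
  have hx : √X ^ 2 = X := Real.sq_sqrt hX0
  have hy : √Y ^ 2 = Y := Real.sq_sqrt hY0
  have h3 : √(X + Y) ≤ √X + √Y - √a / 2 := by
    rw [Real.sqrt_le_left (by linarith)]
    nlinarith [mul_nonneg (sub_nonneg.2 h1) (sub_nonneg.2 h2), mul_le_mul h1 h2 h0 (h0.trans h1)]
  linarith

theorem Psi_sub (X Y : ℕ) : Psi (X + Y) ≤ Psi X + Psi Y := by
  have h := sqrt_key (a := 0) (X := (X : ℝ)) (Y := (Y : ℝ)) le_rfl (Nat.cast_nonneg X)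
    (Nat.cast_nonneg Y)
  rw [Real.sqrt_zero] at h
  unfold Psi
  push_cast
  linarith

theorem Psi_jump {a X Y : ℕ} (ha : 1 ≤ a) (hX : a ≤ X) (hY : a ≤ Y) :
    ((2 * (12 * 2 ^ (Nat.log 2 a / 2) + 3) : ℕ) : ℝ) + Psi (X + Y) ≤ Psi X + Psi Y := by
  have h := sqrt_key (a := (a : ℝ)) (X := (X : ℝ)) (Y := (Y : ℝ)) (Nat.cast_nonneg a)
    (by exact_mod_cast hX) (by exact_mod_cast hY)
  have h1 : (1 : ℝ) ≤ √(a : ℝ) := by
    rw [Real.one_le_sqrt]
    exact_mod_cast ha
  have h2 : (2 : ℝ) ^ (Nat.log 2 a / 2) ≤ √(a : ℝ) := by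
    apply Real.le_sqrt_of_sq_le
    have h3 : (2 ^ (Nat.log 2 a / 2)) ^ 2 ≤ a := by
      rw [← pow_mul]
      refine le_trans (Nat.pow_le_pow_right (by norm_num) (Nat.div_mul_le_self _ 2)) ?_
      exact Nat.pow_log_le_self 2 (by omega)
    exact_mod_cast h3
  unfold Psi
  push_cast
  linarith

/-- the weight of the children up to `t` -/
def W (p w : ℕ → ℕ) (t x : ℕ) : ℕ := ∑ k ∈ (Icc 1 t).filter (fun k => p k = x), w k

theorem W_succ (p w : ℕ → ℕ) (t x : ℕ) :
    W p w (t + 1) x = W p w t x + if p (t + 1) = x then w (t + 1) else 0 := by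
  unfold W
  rw [sum_filter, sum_filter, sum_Icc_succ_top (by omega)]

theorem sum_W (m : ℕ) (p w : ℕ → ℕ) (hp : ∀ i, 1 ≤ i → i ≤ m → p i < i) :
    ∑ x ∈ range (m + 1), W p w m x = ∑ k ∈ Icc 1 m, w k := by
  unfold W
  rw [← sum_fiberwise_of_maps_to (s := Icc 1 m) (t := range (m + 1)) (g := p)]
  intro k hk
  have h := mem_Icc.1 hk
  have := hp k h.1 h.2
  rw [mem_range]
  omega

theorem step {m : ℕ} {p w : ℕ → ℕ} (h : Ord m p w) (t : ℕ) (ht : t ≤ m) :
    ∑ k ∈ (Icc 1 t).filter (fun k => k ∈ Jmp m p w),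
      ((2 * (12 * 2 ^ (lvl p w k / 2) + 3) : ℕ) : ℝ) ≤
      ∑ k ∈ Icc 1 t, Psi (w k) - ∑ x ∈ range (m + 1), Psi (W p w t x) := by
  induction t with
  | zero =>
    have h0 : ∀ x, W p w 0 x = 0 := fun x => by unfold W; simp
    simp [h0, Psi]
  | succ t ih =>
    have ih := ih (by omega)
    have hpt := h.lt (t + 1) (by omega) ht
    have hx0 : p (t + 1) ∈ range (m + 1) := mem_range.2 (by omega)
    have e1 : ∑ x ∈ range (m + 1), Psi (W p w (t + 1) x) =
        ∑ x ∈ range (m + 1), Psi (W p w t x) +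
          (Psi (W p w t (p (t + 1)) + w (t + 1)) - Psi (W p w t (p (t + 1)))) := by
      rw [← add_sum_erase _ _ hx0, ← add_sum_erase _ (fun x => Psi (W p w t x)) hx0]
      have e2 : ∑ x ∈ (range (m + 1)).erase (p (t + 1)), Psi (W p w (t + 1) x) =
          ∑ x ∈ (range (m + 1)).erase (p (t + 1)), Psi (W p w t x) := by
        refine sum_congr rfl fun x hx => ?_
        rw [W_succ, if_neg (Ne.symm (ne_of_mem_erase hx)), add_zero]
      rw [e2, W_succ, if_pos rfl]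
      ring
    rw [e1, sum_Icc_succ_top (by omega), sum_filter, sum_Icc_succ_top (by omega), ← sum_filter]
    by_cases hj : t + 1 ∈ Jmp m p w
    · rw [if_pos hj]
      have hj' := hj
      unfold Jmp at hj'
      rw [mem_filter] at hj'
      obtain ⟨-, -, l, hl⟩ := hj'
      rw [mem_filter] at hl
      have hlm : l ∈ (Ico 1 (t + 1)).filter (fun l => p l = p (t + 1)) :=
        mem_filter.2 ⟨hl.1, hl.2.1⟩
      have ha : 1 ≤ ((Ico 1 (t + 1)).filter (fun l => p l = p (t + 1))).sup w :=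
        hl.2.2.trans (le_sup (f := w) hlm)
      have hX : ((Ico 1 (t + 1)).filter (fun l => p l = p (t + 1))).sup w ≤
          W p w t (p (t + 1)) := by
        apply Finset.sup_le
        intro k hk
        rw [mem_filter, mem_Ico] at hk
        unfold W
        exact single_le_sum (f := w) (fun _ _ => Nat.zero_le _)
          (mem_filter.2 ⟨mem_Icc.2 ⟨hk.1.1, by omega⟩, hk.2⟩)
      have hY : ((Ico 1 (t + 1)).filter (fun l => p l = p (t + 1))).sup w ≤ w (t + 1) := by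
        apply Finset.sup_le
        intro k hk
        rw [mem_filter, mem_Ico] at hk
        exact h.srt k (t + 1) hk.1.1 hk.1.2 ht hk.2
      have hjump := Psi_jump ha hX hY
      change ((2 * (12 * 2 ^ (lvl p w (t + 1) / 2) + 3) : ℕ) : ℝ) + _ ≤ _ at hjump
      linarith
    · rw [if_neg hj]
      have := Psi_sub (W p w t (p (t + 1))) (w (t + 1))
      linarith

theorem sum_Psi_W {m : ℕ} {p w : ℕ → ℕ} (h : Ord m p w) (x : ℕ) (hx : x ≤ m) :
    Psi (W p w m x) = Psi (w x) - 60 * ((w x : ℝ) - W p w m x) := by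
  by_cases hc : ∃ k, 1 ≤ k ∧ k ≤ m ∧ p k = x
  · have h1 := h.w1 x hx hc
    change w x = max 1 (W p w m x) at h1
    rcases Nat.eq_zero_or_pos (W p w m x) with h0 | h0
    · rw [h0] at h1 ⊢
      rw [h1]
      unfold Psi
      simp
    · have h2 : w x = W p w m x := by omega
      rw [h2]
      ring
  · push Not at hc
    have h1 := h.w0 x hx hc
    have h2 : W p w m x = 0 := by
      unfold W
      rw [filter_eq_empty_iff.2, sum_empty]
      intro k hk
      have := mem_Icc.1 hk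
      exact hc k this.1 this.2
    rw [h1, h2]
    unfold Psi
    simp

end Cst

theorem cost : CostStm := by
  intro m p w hm h
  have h1 := Cst.step h m le_rfl
  have e1 : (Icc 1 m).filter (fun k => k ∈ Jmp m p w) = Jmp m p w := by
    ext k
    rw [mem_filter]
    constructor
    · exact fun h => h.2
    · intro hk
      refine ⟨?_, hk⟩
      unfold Jmp at hk
      exact (mem_filter.1 hk).1
  rw [e1] at h1
  have h2 : ∑ x ∈ range (m + 1), Cst.Psi (Cst.W p w m x) =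
      ∑ x ∈ range (m + 1), (Cst.Psi (w x) - 60 * ((w x : ℝ) - Cst.W p w m x)) :=
    sum_congr rfl fun x hx => Cst.sum_Psi_W h x (by have := mem_range.1 hx; omega)
  have h3 : ∑ x ∈ range (m + 1), ((Cst.W p w m x : ℕ) : ℝ) = ∑ k ∈ Icc 1 m, (w k : ℝ) := by
    exact_mod_cast Cst.sum_W m p w h.lt
  have e2 : ∀ F : ℕ → ℝ, ∑ x ∈ range (m + 1), F x = F 0 + ∑ k ∈ Icc 1 m, F k := by
    intro F
    rw [sum_range_succ', add_comm]
    congr 1
    rw [← Finset.Ico_succ_right_eq_Icc, Finset.sum_Ico_eq_sum_range]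
    refine sum_congr (by simp) fun k _ => ?_
    rw [add_comm]
  rw [sum_sub_distrib, ← mul_sum, sum_sub_distrib, h3, e2 (fun x => Cst.Psi (w x)),
    e2 (fun x => (w x : ℝ))] at h2
  have h4 : ((∑ k ∈ Jmp m p w, (2 * (12 * 2 ^ (lvl p w k / 2) + 3)) : ℕ) : ℝ) ≤
      60 * (w 0 : ℝ) - Cst.Psi (w 0) := by
    rw [Nat.cast_sum]
    linarith
  have hp1 : p 1 = 0 := by
    have := h.lt 1 le_rfl hm
    omega
  have hw0 : 1 ≤ w 0 := by
    rw [h.w1 0 (Nat.zero_le m) ⟨1, le_rfl, hm, hp1⟩]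
    exact le_max_left _ _
  have h5 : (1 : ℝ) ≤ √(w 0 : ℝ) := by
    rw [Real.one_le_sqrt]
    exact_mod_cast hw0
  have h6 : ((∑ k ∈ Jmp m p w, (2 * (12 * 2 ^ (lvl p w k / 2) + 3)) : ℕ) : ℝ) ≤
      ((60 * (w 0 - 1) : ℕ) : ℝ) := by
    refine h4.trans ?_
    rw [Nat.cast_mul, Nat.cast_sub hw0]
    unfold Cst.Psi
    push_cast
    linarith
  exact_mod_cast h6

end Pool.Agent.TH56.CL
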