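import Pool.Agent.TH56.CL.Fin
import Pool.Agent.TH830.J1013

/-!
# Graceful supertrees with any larger number of edges, and cyclic decompositions
-/

set_option autoImplicit false

namespace Pool.Agent.TH56.CL

open Finset Pool.Agent.TH830.J1013

/-- a graceful labelling gives a cyclic decomposition of `K_{2n+1}` -/
theorem cyclic {W : Type} (T : SimpleGraph W) (n : ℕ) (h : W → ℕ) (hinj : Function.Injective h)
    (hle : ∀ x, h x ≤ n) (hex : ∀ d, 1 ≤ d → d ≤ n → ∃ a b, T.Adj a b ∧ h b = h a + d)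
    (huniq : ∀ a b a' b', T.Adj a b → T.Adj a' b' → h a < h b → h a' < h b' →
      h b + h a' = h b' + h a → a = a' ∧ b = b') (x y : ZMod (2 * n + 1)) (hxy : x ≠ y) :
    ∃! p : ZMod (2 * n + 1) × W × W, T.Adj p.2.1 p.2.2 ∧
      (h p.2.1 : ZMod (2 * n + 1)) + p.1 = x ∧ (h p.2.2 : ZMod (2 * n + 1)) + p.1 = y := by
  classical
  have hne : NeZero (2 * n + 1) := ⟨by omega⟩
  have hmod : ∀ (u v : ℕ), (u : ZMod (2 * n + 1)) = (v : ZMod (2 * n + 1)) → u < v + (2 * n + 1) →
      v < u + (2 * n + 1) → u = v := by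
    intro u v h h2 h3
    have h4 := (ZMod.natCast_eq_natCast_iff u v (2 * n + 1)).1 h
    exact Nat.ModEq.eq_of_abs_lt h4 (by rw [abs_lt]; constructor <;> omega)
  obtain ⟨δ, hδ⟩ : ∃ δ, δ = (y - x).val := ⟨_, rfl⟩
  have hδ1 : (δ : ZMod (2 * n + 1)) = y - x := by
    rw [hδ, ZMod.natCast_zmod_val]
  have hδ2 : δ < 2 * n + 1 := by
    rw [hδ]
    exact ZMod.val_lt _
  have hδ3 : 1 ≤ δ := by
    by_contra h2
    have h3 : δ = 0 := by omega
    rw [h3, Nat.cast_zero] at hδ1
    exact hxy (sub_eq_zero.1 hδ1.symm).symm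
  -- the differences of the pairs
  have key : ∀ (i : ZMod (2 * n + 1)) (a b : W), T.Adj a b →
      (h a : ZMod (2 * n + 1)) + i = x → (h b : ZMod (2 * n + 1)) + i = y →
      (h b = h a + δ ∧ δ ≤ n) ∨ (h a + δ = h b + (2 * n + 1) ∧ n < δ) := by
    intro i a b hab h1 h2
    have h3 : ((h b + (2 * n + 1) : ℕ) : ZMod (2 * n + 1)) = ((h a + δ : ℕ) : ZMod (2 * n + 1)) := by
      rw [Nat.cast_add, ZMod.natCast_self, add_zero, Nat.cast_add, hδ1]
      linear_combination h2 - h1
    have h3' : ((h b : ℕ) : ZMod (2 * n + 1)) = ((h a + δ : ℕ) : ZMod (2 * n + 1)) := by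
      rw [Nat.cast_add, hδ1]
      linear_combination h2 - h1
    have h4 := hle a
    have h5 := hle b
    have h6 : h a ≠ h b := fun h6 => hab.ne (hinj h6)
    rcases lt_or_ge (h a) (h b) with h7 | h7
    · left
      have := hmod _ _ h3' (by omega) (by omega)
      omega
    · right
      have := hmod _ _ h3 (by omega) (by omega)
      omega
  rcases le_or_gt δ n with hn | hn
  · obtain ⟨a, b, hab, hb⟩ := hex δ hδ3 hn
    refine ⟨(x - h a, a, b), ⟨hab, by simp, ?_⟩, ?_⟩
    · show (h b : ZMod (2 * n + 1)) + (x - h a) = y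
      rw [hb, Nat.cast_add, hδ1]
      ring
    · rintro ⟨i, a', b'⟩ ⟨h1, h2, h3⟩
      simp only at h1 h2 h3
      rcases key i a' b' h1 h2 h3 with h4 | h4
      · obtain ⟨h5, h6⟩ := huniq a' b' a b h1 hab (by omega) (by omega) (by omega)
        subst h5
        subst h6
        have h7 : i = x - (h a' : ZMod (2 * n + 1)) := by
          rw [← h2]
          ring
        rw [h7]
      · omega
  · obtain ⟨a, b, hab, hb⟩ := hex (2 * n + 1 - δ) (by omega) (by omega)
    refine ⟨(x - h b, b, a), ⟨hab.symm, by simp, ?_⟩, ?_⟩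
    · show (h a : ZMod (2 * n + 1)) + (x - h b) = y
      have h1 : ((h b + δ : ℕ) : ZMod (2 * n + 1)) = ((h a + (2 * n + 1) : ℕ) : ZMod (2 * n + 1)) := by
        congr 1
        omega
      rw [Nat.cast_add, Nat.cast_add, ZMod.natCast_self, hδ1] at h1
      linear_combination (-1 : ZMod (2 * n + 1)) * h1
    · rintro ⟨i, a', b'⟩ ⟨h1, h2, h3⟩
      simp only at h1 h2 h3
      rcases key i a' b' h1 h2 h3 with h4 | h4
      · omega
      · obtain ⟨h5, h6⟩ := huniq b' a' a b h1.symm hab (by omega) (by omega) (by omega)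
        subst h5
        subst h6
        have h7 : i = x - (h a' : ZMod (2 * n + 1)) := by
          rw [← h2]
          ring
        rw [h7]

/-- graceful supertrees with `n` edges -/
theorem exists_super_ge {V : Type} [Fintype V] {T : SimpleGraph V} (hT : T.IsTree)
    (h1 : 1 ≤ T.edgeSet.ncard) (n : ℕ)
    (hn : T.edgeSet.ncard + 2 * ({x : V | 2 ≤ (T.neighborSet x).ncard ∧
        {y : V | T.Adj x y ∧ 2 ≤ (T.neighborSet y).ncard}.ncard ≤ 1}.ncard - 2) *
        min ({x : V | 2 ≤ (T.neighborSet x).ncard ∧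
          {y : V | T.Adj x y ∧ 2 ≤ (T.neighborSet y).ncard}.ncard ≤ 1}.ncard - 1) 30 ≤ n) :
    ∃ (W : Type) (_ : Fintype W) (T' : SimpleGraph W) (h : W → ℕ), T'.IsTree ∧
      T'.edgeSet.ncard = n ∧ T.IsContained T' ∧ Function.Injective h ∧ (∀ x, h x ≤ n) ∧
      (∀ d, 1 ≤ d → d ≤ n → ∃ a b, T'.Adj a b ∧ h b = h a + d) ∧
      (∀ a b a' b', T'.Adj a b → T'.Adj a' b' → h a < h b → h a' < h b' →
        h b + h a' = h b' + h a → a = a' ∧ b = b') := by
  classical
  obtain ⟨M, T1, hT1, ⟨g, hg1, hg2, hg3⟩, hc, hM, hle⟩ := exists_super hT h1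
  have hMn : M ≤ n := hle.trans hn
  rw [hM] at hg2 hg3
  obtain ⟨x0, hx0⟩ : ∃ x0, g x0 = 0 := by
    have h2 : (Finset.univ.image g) = Finset.range (M + 1) := by
      apply Finset.eq_of_subset_of_card_le
      · intro t ht
        obtain ⟨x, -, rfl⟩ := Finset.mem_image.1 ht
        exact Finset.mem_range.2 (Nat.lt_succ_of_le (hg2 x))
      · rw [Finset.card_image_of_injective _ hg1, Finset.card_range, Finset.card_univ,
          Fintype.card_fin]
    have h3 : 0 ∈ Finset.univ.image g := by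
      rw [h2]
      exact Finset.mem_range.2 (Nat.succ_pos _)
    obtain ⟨x, -, hx⟩ := Finset.mem_image.1 h3
    exact ⟨x, hx⟩
  let w : Fin (n - M) → Fin (M + 1) := fun _ => x0
  let h : Fin (M + 1) ⊕ Fin (n - M) → ℕ := Sum.elim g (fun i => M + 1 + i)
  have htree : (att T1 w).IsTree := att_tree T1 w hT1
  have hcard : (att T1 w).edgeSet.ncard = n := by
    rw [← Nat.card_coe_set_eq, att_edges, Nat.card_coe_set_eq, hM, Nat.card_eq_fintype_card,
      Fintype.card_fin]
    omega
  have hinj : Function.Injective h := by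
    rintro (x | i) (x' | i') heq
    · exact congrArg Sum.inl (hg1 heq)
    · exfalso
      have h2 : g x = M + 1 + i' := heq
      have h3 := hg2 x
      omega
    · exfalso
      have h2 : M + 1 + i = g x' := heq
      have h3 := hg2 x'
      omega
    · have h2 : M + 1 + (i : ℕ) = M + 1 + i' := heq
      exact congrArg Sum.inr (Fin.ext (by omega))
  have hex : ∀ d, 1 ≤ d → d ≤ n → ∃ a b, (att T1 w).Adj a b ∧ h b = h a + d := by
    intro d hd1 hd2
    by_cases hd : d ≤ M
    · have h2 : d ∈ Set.Icc 1 M := ⟨hd1, hd⟩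
      rw [← hg3] at h2
      obtain ⟨u, v, h3, h4⟩ := h2
      rcases le_total (g u) (g v) with h5 | h5
      · refine ⟨Sum.inl u, Sum.inl v, h3, ?_⟩
        show g v = g u + d
        omega
      · refine ⟨Sum.inl v, Sum.inl u, h3.symm, ?_⟩
        show g u = g v + d
        omega
    · refine ⟨Sum.inl x0, Sum.inr ⟨d - M - 1, by omega⟩, (rfl : x0 = x0), ?_⟩
      show M + 1 + (d - M - 1) = g x0 + d
      omega
  refine ⟨Fin (M + 1) ⊕ Fin (n - M), inferInstance, att T1 w, h, htree, hcard,
    hc.trans (att_contains T1 w), hinj, ?_, hex, ?_⟩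
  · rintro (x | i)
    · exact (hg2 x).trans hMn
    · show M + 1 + (i : ℕ) ≤ n
      have := i.2
      omega
  · -- the differences of different edges are different
    let F : Sym2 (Fin (M + 1) ⊕ Fin (n - M)) → ℕ := Sym2.lift
      ⟨fun a b => Int.natAbs ((h a : ℤ) - h b), fun a b => by
        show Int.natAbs ((h a : ℤ) - h b) = Int.natAbs ((h b : ℤ) - h a)
        omega⟩
    have hF : ∀ a b, F s(a, b) = Int.natAbs ((h a : ℤ) - h b) := fun a b => rfl
    have hEc : (att T1 w).edgeFinset.card = n := by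
      have h2 : (att T1 w).edgeFinset.card = (att T1 w).edgeSet.ncard := by
        rw [← Set.ncard_coe_finset, SimpleGraph.coe_edgeFinset]
      exact h2.trans hcard
    have hFi : Set.InjOn F (att T1 w).edgeFinset := by
      apply Finset.injOn_of_card_image_eq
      apply le_antisymm Finset.card_image_le
      rw [hEc]
      calc n = (Finset.Icc 1 n).card := by rw [Nat.card_Icc]; omega
        _ ≤ _ := by
          apply Finset.card_le_card
          intro d hd
          rw [Finset.mem_Icc] at hd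
          obtain ⟨a, b, hab, hd2⟩ := hex d hd.1 hd.2
          refine Finset.mem_image.2 ⟨s(a, b), SimpleGraph.mem_edgeFinset.2 hab, ?_⟩
          rw [hF]
          omega
    intro a b a' b' hab hab' h2 h3 h4
    have h5 : s(a, b) = s(a', b') := by
      apply hFi
      · exact SimpleGraph.mem_edgeFinset.2 hab
      · exact SimpleGraph.mem_edgeFinset.2 hab'
      · rw [hF, hF]
        omega
    rcases Sym2.eq_iff.1 h5 with h6 | h6
    · exact h6
    · exfalso
      rw [h6.1, h6.2] at h2
      omega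

end Pool.Agent.TH56.CL
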