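import Pool.Agent.TH56.CT.Def

/-!
# A linear bound for graceful supertrees: definitions and the statements of the parts

Notation as in `Pool.Agent.TH56.CT.Def`. The enumeration is now a depth-first order in which the
children with the smaller subtrees come first, and every jump has a level; the special steps of
jumps of different levels are taken from disjoint sets of multiples of `3`.
-/

set_option autoImplicit false

namespace Pool.Agent.TH56.CL

open Finset Pool.Agent.TH56.CT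

/-- the jumps are nested and the levels `q` decrease from the outer to the inner jumps -/
structure Lvl (p : ℕ → ℕ) (Js : Finset ℕ) (q : ℕ → ℕ) : Prop where
  one : 1 ∉ Js
  lam : ∀ k ∈ Js, ∀ l ∈ Js, p k < l → l < k → p k ≤ p l
  lev : ∀ k ∈ Js, ∀ l ∈ Js, p k < p l → p l < k → q l < q k

/-- Part I: the steps exist -/
def WrdStm : Prop := ∀ (m : ℕ) (p : ℕ → ℕ) (Js : Finset ℕ) (q : ℕ → ℕ) (R : ℕ → ℕ → Prop)
  (g : ℕ → ℕ), 1 ≤ m → Enum m p Js → Lvl p Js q →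
  (∀ a t, R a t → t % 3 = 0) → (∀ a b t, R a t → R b t → a = b) →
  (∀ a N, ∃ t, N ≤ t ∧ t < N + g a ∧ R a t) →
  ∃ (M : ℕ) (c : ℕ → Bool) (s : ℕ → ℕ), Good m p Js M c s ∧ M ≤ m + 2 * ∑ k ∈ Js, (g (q k) + 3)

/-- Part R: sets of multiples of `3` with small gaps -/
def ResStm : Prop := ∃ R : ℕ → ℕ → Prop, (∀ a t, R a t → t % 3 = 0) ∧
  (∀ a b t, R a t → R b t → a = b) ∧ ∀ a N, ∃ t, N ≤ t ∧ t < N + 12 * 2 ^ (a / 2) ∧ R a t

/-- depth-first orders of the vertices `0, …, m` with weights `w`; `w x = 0` if `x` has no children,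
and the children of a vertex appear in the order of their weights -/
structure Ord (m : ℕ) (p : ℕ → ℕ) (w : ℕ → ℕ) : Prop where
  lt : ∀ i, 1 ≤ i → i ≤ m → p i < i
  lam : ∀ k, 1 ≤ k → k ≤ m → ∀ l, p k < l → l < k → p k ≤ p l
  srt : ∀ l k, 1 ≤ l → l < k → k ≤ m → p l = p k → w l ≤ w k
  w0 : ∀ x ≤ m, (∀ k, 1 ≤ k → k ≤ m → p k ≠ x) → w x = 0
  w1 : ∀ x ≤ m, (∃ k, 1 ≤ k ∧ k ≤ m ∧ p k = x) →
    w x = max 1 (∑ k ∈ (Icc 1 m).filter (fun k => p k = x), w k)

/-- the jumps: the vertices with children which have an older sibling with children -/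
def Jmp (m : ℕ) (p w : ℕ → ℕ) : Finset ℕ :=
  (Icc 1 m).filter (fun k => 1 ≤ w k ∧ ((Ico 1 k).filter (fun l => p l = p k ∧ 1 ≤ w l)).Nonempty)

/-- the level of a jump: the logarithm of the largest weight of an older sibling -/
def lvl (p w : ℕ → ℕ) (k : ℕ) : ℕ := Nat.log 2 (((Ico 1 k).filter (fun l => p l = p k)).sup w)

/-- Part E: depth-first orders give enumerations with levels -/
def EnuStm : Prop := ∀ (m : ℕ) (p w : ℕ → ℕ), Ord m p w →
  Enum m p (Jmp m p w) ∧ Lvl p (Jmp m p w) (lvl p w)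

/-- Part C: the cost is linear -/
def CostStm : Prop := ∀ (m : ℕ) (p w : ℕ → ℕ), 1 ≤ m → Ord m p w →
  ∑ k ∈ Jmp m p w, (2 * (12 * 2 ^ (lvl p w k / 2) + 3)) ≤ 60 * (w 0 - 1)

/-- Part D: depth-first order with the children of each vertex in the order of `key` -/
def DfsStm : Prop := ∀ (V : Type) [Fintype V] (r : V) (par : V → V) (key : V → ℕ),
  par r = r → (∀ v, ∃ n, par^[n] v = r) →
  ∃ (e : ℕ → V) (p : ℕ → ℕ), e 0 = r ∧
    (∀ i j, i < Fintype.card V → j < Fintype.card V → e i = e j → i = j) ∧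
    (∀ x, ∃ i < Fintype.card V, e i = x) ∧
    (∀ i, 1 ≤ i → i < Fintype.card V → p i < i ∧ e (p i) = par (e i)) ∧
    (∀ k, 1 ≤ k → k < Fintype.card V → ∀ l, p k < l → l < k → p k ≤ p l) ∧
    (∀ l k, 1 ≤ l → l < k → k < Fintype.card V → p l = p k → key (e l) ≤ key (e k))

/-- Part T: roots and weights; the number at the end is the number of leaves (or of vertices, if
there is only one) of the tree obtained by deleting all leaves -/
def RootStm : Prop := ∀ (V : Type) [Fintype V] [DecidableEq V] (T : SimpleGraph V), T.IsTree →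
  1 ≤ T.edgeSet.ncard → ∃ (r : V) (par : V → V) (w : V → ℕ),
    par r = r ∧ (∀ v, ∃ n, par^[n] v = r) ∧ (∀ v, v ≠ r → T.Adj v (par v)) ∧
    (∀ x y, T.Adj x y → (x ≠ r ∧ par x = y) ∨ (y ≠ r ∧ par y = x)) ∧
    (∀ x, (∀ v, v ≠ r → par v ≠ x) → w x = 0) ∧
    (∀ x, (∃ v, v ≠ r ∧ par v = x) →
      w x = max 1 (∑ v ∈ univ.filter (fun v => v ≠ r ∧ par v = x), w v)) ∧
    (w r = 1 ∨ w r + 1 ≤ {x : V | 2 ≤ (T.neighborSet x).ncard ∧
      {y : V | T.Adj x y ∧ 2 ≤ (T.neighborSet y).ncard}.ncard ≤ 1}.ncard)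

/-- Part II: an enumeration of the vertices of a tree -/
def OrdStm : Prop := ∀ (V : Type) [Fintype V] (T : SimpleGraph V), T.IsTree → 1 ≤ T.edgeSet.ncard →
  ∃ (v : ℕ → V) (p : ℕ → ℕ) (Js : Finset ℕ) (q : ℕ → ℕ), Enum T.edgeSet.ncard p Js ∧ Lvl p Js q ∧
    (∀ i j, i ≤ T.edgeSet.ncard → j ≤ T.edgeSet.ncard → v i = v j → i = j) ∧
    (∀ x : V, ∃ i ≤ T.edgeSet.ncard, v i = x) ∧
    (∀ x y : V, T.Adj x y → ∃ i, 1 ≤ i ∧ i ≤ T.edgeSet.ncard ∧
      ((v i = x ∧ v (p i) = y) ∨ (v i = y ∧ v (p i) = x))) ∧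
    ∑ k ∈ Js, (2 * (12 * 2 ^ (q k / 2) + 3)) ≤
      60 * ({x : V | 2 ≤ (T.neighborSet x).ncard ∧
        {y : V | T.Adj x y ∧ 2 ≤ (T.neighborSet y).ncard}.ncard ≤ 1}.ncard - 2)

end Pool.Agent.TH56.CL
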