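import Pool.Agent.TH56.CL.Def

/-!
# Part D: a depth-first order in which the children of each vertex are sorted (job 4052)
-/

set_option autoImplicit false

namespace Pool.Agent.TH56.CL

namespace DfsAux

/-- `v` is an unplaced child of `x` -/
def Unp {V : Type} (r : V) (par : V → V) (n : ℕ) (e : ℕ → V) (x v : V) : Prop :=
  v ≠ r ∧ par v = x ∧ ∀ j < n, e j ≠ v

/-- partial depth-first orders -/
structure St {V : Type} (r : V) (par : V → V) (key : V → ℕ) (n : ℕ) (e : ℕ → V)
    (p : ℕ → ℕ) : Prop where
  zero : e 0 = r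
  inj : ∀ i j, i < n → j < n → e i = e j → i = j
  lt : ∀ i, 1 ≤ i → i < n → p i < i ∧ e (p i) = par (e i)
  opn : ∀ i < n, (∃ v, Unp r par n e (e i) v) → ∀ l, i < l → l < n → i ≤ p l
  lam : ∀ k, 1 ≤ k → k < n → ∀ l, p k < l → l < k → p k ≤ p l
  srt : ∀ l k, 1 ≤ l → l < k → k < n → p l = p k → key (e l) ≤ key (e k)
  mn : ∀ l, 1 ≤ l → l < n → ∀ v, Unp r par n e (e (p l)) v → key (e l) ≤ key v

variable {V : Type} {r : V} {par : V → V} {key : V → ℕ} {n : ℕ} {e : ℕ → V} {p : ℕ → ℕ}

theorem step (h : St r par key n e p) (hn : 1 ≤ n) {i : ℕ} (hi : i < n) {v : V}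
    (hv : Unp r par n e (e i) v)
    (hmax : ∀ j < n, (∃ u, Unp r par n e (e j) u) → j ≤ i)
    (hmin : ∀ u, Unp r par n e (e i) u → key v ≤ key u) :
    St r par key (n + 1) (Function.update e n v) (Function.update p n i) := by
  have he : ∀ j, j < n → Function.update e n v j = e j := fun j hj =>
    Function.update_of_ne (by omega) _ _
  have hp : ∀ j, j < n → Function.update p n i j = p j := fun j hj =>
    Function.update_of_ne (by omega) _ _
  have hen : Function.update e n v n = v := Function.update_self _ _ _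
  have hpn : Function.update p n i n = i := Function.update_self _ _ _
  have hunp : ∀ x u, Unp r par (n + 1) (Function.update e n v) x u → Unp r par n e x u := by
    rintro x u ⟨h1, h2, h3⟩
    refine ⟨h1, h2, fun j hj => ?_⟩
    have := h3 j (by omega)
    rwa [he j hj] at this
  refine ⟨?_, ?_, ?_, ?_, ?_, ?_, ?_⟩
  · rw [he 0 (by omega)]
    exact h.zero
  · intro a b ha hb hab
    rcases Nat.lt_or_ge a n with h1 | h1
    · rcases Nat.lt_or_ge b n with h2 | h2
      · rw [he a h1, he b h2] at hab
        exact h.inj a b h1 h2 hab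
      · have hbn : b = n := by omega
        subst hbn
        rw [he a h1, hen] at hab
        exact absurd hab (hv.2.2 a h1)
    · have han : a = n := by omega
      subst han
      rcases Nat.lt_or_ge b a with h2 | h2
      · rw [hen, he b h2] at hab
        exact absurd hab.symm (hv.2.2 b h2)
      · omega
  · intro j hj1 hj2
    rcases Nat.lt_or_ge j n with h1 | h1
    · obtain ⟨h2, h3⟩ := h.lt j hj1 h1
      rw [hp j h1, he j h1, he (p j) (by omega)]
      exact ⟨h2, h3⟩
    · have hjn : j = n := by omega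
      subst hjn
      rw [hpn, hen, he i hi]
      exact ⟨hi, hv.2.1.symm⟩
  · rintro j hj ⟨u, hu⟩ l hl1 hl2
    have hjn : j < n := by omega
    rw [he j hjn] at hu
    have hu' := hunp _ _ hu
    rcases Nat.lt_or_ge l n with h1 | h1
    · rw [hp l h1]
      exact h.opn j hjn ⟨u, hu'⟩ l hl1 h1
    · have hln : l = n := by omega
      subst hln
      rw [hpn]
      exact hmax j hjn ⟨u, hu'⟩
  · intro k hk1 hk2 l hl1 hl2
    have hln : l < n := by omega
    rw [hp l hln]
    rcases Nat.lt_or_ge k n with h1 | h1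
    · rw [hp k h1] at hl1 ⊢
      exact h.lam k hk1 h1 l hl1 hl2
    · have hkn : k = n := by omega
      subst hkn
      rw [hpn] at hl1 ⊢
      exact h.opn i hi ⟨v, hv⟩ l hl1 hl2
  · intro l k hl hlk hk hpp
    have hln : l < n := by omega
    rw [hp l hln] at hpp
    rw [he l hln]
    rcases Nat.lt_or_ge k n with h1 | h1
    · rw [hp k h1] at hpp
      rw [he k h1]
      exact h.srt l k hl hlk h1 hpp
    · have hkn : k = n := by omega
      subst hkn
      rw [hpn] at hpp
      rw [hen]
      refine h.mn l hl hln v ?_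
      rw [hpp]
      exact hv
  · intro l hl1 hl2 u hu
    have hu' := hunp _ _ hu
    rcases Nat.lt_or_ge l n with h1 | h1
    · have h2 := (h.lt l hl1 h1).1
      rw [hp l h1, he (p l) (by omega)] at hu'
      rw [he l h1]
      exact h.mn l hl1 h1 u hu'
    · have hln : l = n := by omega
      subst hln
      rw [hpn, he i hi] at hu'
      rw [hen]
      exact hmin u hu'

theorem all [Fintype V] (hpar : ∀ v, ∃ n, par^[n] v = r) :
    ∀ n, 1 ≤ n → n ≤ Fintype.card V → ∃ (e : ℕ → V) (p : ℕ → ℕ), St r par key n e p := by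
  classical
  intro n hn
  induction n, hn using Nat.le_induction with
  | base =>
    intro _
    refine ⟨fun _ => r, fun _ => 0, rfl, ?_, ?_, ?_, ?_, ?_, ?_⟩
    · intro i j hi hj _; omega
    · intro i h1 h2; omega
    · intro i h1 _ l h2 h3; omega
    · intro k h1 h2; omega
    · intro l k h1 h2 h3; omega
    · intro l h1 h2; omega
  | succ n hn ih =>
    intro hcard
    obtain ⟨e, p, h⟩ := ih (by omega)
    -- an unplaced vertex
    obtain ⟨z, hz⟩ : ∃ z, ∀ j < n, e j ≠ z := by
      by_contra hcon
      push Not at hcon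
      have hsurj : Function.Surjective (fun i : Fin n => e i) := by
        intro x
        obtain ⟨j, hj, hx⟩ := hcon x
        exact ⟨⟨j, hj⟩, hx⟩
      have := Fintype.card_le_of_surjective _ hsurj
      rw [Fintype.card_fin] at this
      omega
    -- an unplaced vertex whose parent is placed
    obtain ⟨w, hwr, hw, hwp⟩ : ∃ w, w ≠ r ∧ (∀ j < n, e j ≠ w) ∧ ∃ j < n, e j = par w := by
      have hex : ∃ k, ∃ j < n, e j = par^[k] z := by
        obtain ⟨k, hk⟩ := hpar z
        exact ⟨k, 0, by omega, by rw [hk]; exact h.zero⟩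
      have hfind := Nat.find_spec hex
      have hk0 : Nat.find hex ≠ 0 := by
        intro h0
        rw [h0] at hfind
        obtain ⟨j, hj, hj2⟩ := hfind
        exact hz j hj hj2
      obtain ⟨k, hk⟩ := Nat.exists_eq_succ_of_ne_zero hk0
      have hlt : ¬ ∃ j < n, e j = par^[k] z := Nat.find_min hex (by omega)
      push Not at hlt
      refine ⟨par^[k] z, ?_, hlt, ?_⟩
      · intro hr
        exact hlt 0 (by omega) (by rw [hr]; exact h.zero)
      · rw [hk, Function.iterate_succ_apply'] at hfind
        exact hfind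
    -- the largest open index
    let S : Finset ℕ := (Finset.range n).filter (fun i => ∃ u, Unp r par n e (e i) u)
    have hS : S.Nonempty := by
      obtain ⟨j, hj, hj2⟩ := hwp
      exact ⟨j, Finset.mem_filter.2 ⟨Finset.mem_range.2 hj, w, hwr, hj2.symm, hw⟩⟩
    obtain ⟨i, hiS, himax⟩ := S.exists_max_image id hS
    obtain ⟨hi1, hi2⟩ := Finset.mem_filter.1 hiS
    have hi : i < n := Finset.mem_range.1 hi1
    -- the child with the smallest key
    let C : Finset V := Finset.univ.filter (fun u => Unp r par n e (e i) u)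
    have hC : C.Nonempty := by
      obtain ⟨u, hu⟩ := hi2
      exact ⟨u, Finset.mem_filter.2 ⟨Finset.mem_univ _, hu⟩⟩
    obtain ⟨v, hvC, hvmin⟩ := C.exists_min_image key hC
    have hv := (Finset.mem_filter.1 hvC).2
    refine ⟨_, _, step h hn hi hv ?_ ?_⟩
    · intro j hj hu
      exact himax j (Finset.mem_filter.2 ⟨Finset.mem_range.2 hj, hu⟩)
    · intro u hu
      exact hvmin u (Finset.mem_filter.2 ⟨Finset.mem_univ _, hu⟩)

end DfsAux

open DfsAux in
theorem dfs : DfsStm := by
  classical
  intro V _ r par key _ hpar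
  have hc : 1 ≤ Fintype.card V := Fintype.card_pos_iff.2 ⟨r⟩
  obtain ⟨e, p, h⟩ := all (key := key) hpar (Fintype.card V) hc le_rfl
  refine ⟨e, p, h.zero, h.inj, ?_, h.lt, h.lam, h.srt⟩
  have hinj : Function.Injective (fun i : Fin (Fintype.card V) => e i) := by
    intro i j hij
    exact Fin.ext (h.inj i j i.2 j.2 hij)
  have hbij : Function.Bijective (fun i : Fin (Fintype.card V) => e i) :=
    (Fintype.bijective_iff_injective_and_card _).mpr ⟨hinj, Fintype.card_fin _⟩
  intro x
  obtain ⟨i, hi⟩ := hbij.2 x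
  exact ⟨i, i.2, hi⟩

end Pool.Agent.TH56.CL
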