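import Pool.Agent.TH56.CL.Def

/-!
# Assembly: an enumeration of the vertices of a tree with nested jumps and levels
-/

set_option autoImplicit false

namespace Pool.Agent.TH56.CL

open Finset Pool.Agent.TH56.CT

theorem ord_of (hD : DfsStm) (hE : EnuStm) (hC : CostStm) (hT : RootStm) : OrdStm := by
  classical
  intro V _ T hTree hm1
  obtain ⟨r, par, w, hpr, hreach, hadj, hadj', hw0, hw1, hL⟩ := hT V T hTree hm1
  have hcard : Fintype.card V = T.edgeSet.ncard + 1 := by
    have h1 := hTree.card_edgeFinset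
    have h2 : T.edgeSet.ncard = T.edgeFinset.card := by
      rw [← SimpleGraph.coe_edgeFinset, Set.ncard_coe_finset]
    omega
  obtain ⟨e, p, he0, hinj, hsurj, hpe, hlam, hsrt⟩ := hD V r par w hpr hreach
  rw [hcard] at hinj hsurj hpe hlam hsrt
  set m := T.edgeSet.ncard with hmdef
  have hpos : ∀ x : V, x ≠ r → ∃ i, 1 ≤ i ∧ i ≤ m ∧ e i = x := by
    intro x hx
    obtain ⟨i, hi, hix⟩ := hsurj x
    refine ⟨i, ?_, by omega, hix⟩
    rcases Nat.eq_zero_or_pos i with h0 | h0
    · exfalso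
      apply hx
      rw [← hix, h0, he0]
    · exact h0
  have hne : ∀ k, 1 ≤ k → k ≤ m → e k ≠ r := by
    intro k hk1 hkm h
    rw [← he0] at h
    have := hinj k 0 (by omega) (by omega) h
    omega
  have hch : ∀ x ≤ m, ∀ k, 1 ≤ k → k ≤ m → (par (e k) = e x ↔ p k = x) := by
    intro x hx k hk1 hkm
    obtain ⟨h1, h2⟩ := hpe k hk1 (by omega)
    rw [← h2]
    constructor
    · intro h
      exact hinj _ _ (by omega) (by omega) h
    · intro h
      rw [h]
  have hOrd : Ord m p (fun i => w (e i)) := by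
    refine ⟨?_, ?_, ?_, ?_, ?_⟩
    · intro i h1 h2
      exact (hpe i h1 (by omega)).1
    · intro k h1 h2 l h3 h4
      exact hlam k h1 (by omega) l h3 h4
    · intro l k h1 h2 h3 h4
      exact hsrt l k h1 h2 (by omega) h4
    · intro x hx h
      apply hw0
      intro v hv hvx
      obtain ⟨k, hk1, hkm, rfl⟩ := hpos v hv
      exact h k hk1 hkm ((hch x hx k hk1 hkm).1 hvx)
    · rintro x hx ⟨k, hk1, hkm, hkx⟩
      have h1 := hw1 (e x) ⟨e k, hne k hk1 hkm, (hch x hx k hk1 hkm).2 hkx⟩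
      change w (e x) = _
      rw [h1]
      congr 1
      have h2 : univ.filter (fun v => v ≠ r ∧ par v = e x) =
          ((Icc 1 m).filter (fun k => p k = x)).image e := by
        ext v
        simp only [mem_filter, mem_univ, true_and, mem_image, mem_Icc]
        constructor
        · rintro ⟨hv, hvx⟩
          obtain ⟨j, hj1, hjm, rfl⟩ := hpos v hv
          exact ⟨j, ⟨⟨hj1, hjm⟩, (hch x hx j hj1 hjm).1 hvx⟩, rfl⟩
        · rintro ⟨j, ⟨⟨hj1, hjm⟩, hjx⟩, rfl⟩
          exact ⟨hne j hj1 hjm, (hch x hx j hj1 hjm).2 hjx⟩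
      rw [h2, sum_image]
      intro i hi j hj hij
      simp only [coe_filter, mem_Icc, Set.mem_ofPred_eq] at hi hj
      exact hinj i j (by omega) (by omega) hij
  obtain ⟨hEn, hLv⟩ := hE m p (fun i => w (e i)) hOrd
  refine ⟨e, p, Jmp m p (fun i => w (e i)), lvl p (fun i => w (e i)), hEn, hLv, ?_, ?_, ?_, ?_⟩
  · intro i j hi hj h
    exact hinj i j (by omega) (by omega) h
  · intro x
    obtain ⟨i, hi, hix⟩ := hsurj x
    exact ⟨i, by omega, hix⟩
  · intro x y hxy
    rcases hadj' x y hxy with ⟨h1, h2⟩ | ⟨h1, h2⟩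
    · obtain ⟨i, hi1, him, rfl⟩ := hpos x h1
      refine ⟨i, hi1, him, Or.inl ⟨rfl, ?_⟩⟩
      rw [(hpe i hi1 (by omega)).2, h2]
    · obtain ⟨i, hi1, him, rfl⟩ := hpos y h1
      refine ⟨i, hi1, him, Or.inr ⟨rfl, ?_⟩⟩
      rw [(hpe i hi1 (by omega)).2, h2]
  · refine le_trans (hC m p (fun i => w (e i)) hm1 hOrd) ?_
    change 60 * (w (e 0) - 1) ≤ _
    rw [he0]
    apply Nat.mul_le_mul_left
    rcases hL with h | h
    · rw [h]; exact Nat.zero_le _
    · omega

end Pool.Agent.TH56.CL
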