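import Pool.Agent.TH56.CL.Def

/-!
Part R: disjoint sets of multiples of `3` with small gaps
-/

set_option autoImplicit false

namespace Pool.Agent.TH56.CL

private theorem pow_odd : ∀ (i j z z' : ℕ), 2 ^ i * (1 + 2 * z) = 2 ^ j * (1 + 2 * z') → i = j
  | 0, 0, _, _, _ => rfl
  | 0, j + 1, z, z', h => by
    exfalso
    rw [pow_succ, pow_zero, one_mul] at h
    have : 2 ^ j * 2 * (1 + 2 * z') = 2 * (2 ^ j * (1 + 2 * z')) := by ring
    omega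
  | i + 1, 0, z, z', h => by
    exfalso
    rw [pow_succ, pow_zero, one_mul] at h
    have : 2 ^ i * 2 * (1 + 2 * z) = 2 * (2 ^ i * (1 + 2 * z)) := by ring
    omega
  | i + 1, j + 1, z, z', h => by
    have h1 : 2 ^ i * (1 + 2 * z) = 2 ^ j * (1 + 2 * z') := by
      rw [pow_succ, pow_succ] at h
      have e1 : 2 ^ i * 2 * (1 + 2 * z) = 2 * (2 ^ i * (1 + 2 * z)) := by ring
      have e2 : 2 ^ j * 2 * (1 + 2 * z') = 2 * (2 ^ j * (1 + 2 * z')) := by ring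
      omega
    rw [pow_odd i j z z' h1]

theorem res : ResStm := by
  refine ⟨fun a t => ∃ z : ℕ, t = 3 * (a % 2) + 6 * 2 ^ (a / 2) + 12 * 2 ^ (a / 2) * z, ?_, ?_, ?_⟩
  · rintro a t ⟨z, rfl⟩
    have : 12 * 2 ^ (a / 2) * z = 12 * (2 ^ (a / 2) * z) := by ring
    omega
  · rintro a b t ⟨z, hz⟩ ⟨z', hz'⟩
    have e1 : 12 * 2 ^ (a / 2) * z + 6 * 2 ^ (a / 2) = 6 * (2 ^ (a / 2) * (1 + 2 * z)) := by ring
    have e2 : 12 * 2 ^ (b / 2) * z' + 6 * 2 ^ (b / 2) = 6 * (2 ^ (b / 2) * (1 + 2 * z')) := by ring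
    have h1 : a % 2 = b % 2 := by omega
    have h2 : 2 ^ (a / 2) * (1 + 2 * z) = 2 ^ (b / 2) * (1 + 2 * z') := by omega
    have h3 := pow_odd _ _ _ _ h2
    omega
  · intro a N
    have hg : 0 < 12 * 2 ^ (a / 2) := by positivity
    by_cases h : N ≤ 3 * (a % 2) + 6 * 2 ^ (a / 2)
    · refine ⟨3 * (a % 2) + 6 * 2 ^ (a / 2), h, ?_, 0, by ring⟩
      have h1 : 1 ≤ 2 ^ (a / 2) := Nat.one_le_two_pow
      omega
    · obtain ⟨d, hd⟩ : ∃ d, N = 3 * (a % 2) + 6 * 2 ^ (a / 2) + d :=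
        ⟨N - (3 * (a % 2) + 6 * 2 ^ (a / 2)), by omega⟩
      obtain ⟨G, hG⟩ : ∃ G, G = 12 * 2 ^ (a / 2) := ⟨_, rfl⟩
      rw [← hG] at hg ⊢
      have h2 := Nat.div_add_mod (d + G - 1) G
      have h3 := Nat.mod_lt (d + G - 1) hg
      refine ⟨3 * (a % 2) + 6 * 2 ^ (a / 2) + G * ((d + G - 1) / G), ?_, ?_, (d + G - 1) / G, by rw [hG]⟩
      · omega
      · omega

end Pool.Agent.TH56.CL
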