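import Pool.Agent.TH56.CL.Wrd
import Pool.Agent.TH56.CL.Res
import Pool.Agent.TH56.CL.Ord
import Pool.Agent.TH56.CL.Dfs
import Pool.Agent.TH56.CL.Enu
import Pool.Agent.TH56.CL.Cost
import Pool.Agent.TH56.CL.Root
import Pool.Agent.TH56.CT.Sup
import Pool.Agent.TH56.CT.Ord

/-!
# A linear bound for graceful supertrees: assembly of the parts
-/

set_option autoImplicit false

namespace Pool.Agent.TH56.CL

open Finset Pool.Agent.TH56.CT

theorem ord : OrdStm := ord_of dfs enu cost root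

/-- the steps of a tree: few steps are left out -/
theorem exists_good {V : Type} [Fintype V] {T : SimpleGraph V} (hT : T.IsTree)
    (h1 : 1 ≤ T.edgeSet.ncard) :
    ∃ (v : ℕ → V) (p : ℕ → ℕ) (Js : Finset ℕ) (M : ℕ) (c : ℕ → Bool) (s : ℕ → ℕ),
      Enum T.edgeSet.ncard p Js ∧ Good T.edgeSet.ncard p Js M c s ∧
      (∀ i j, i ≤ T.edgeSet.ncard → j ≤ T.edgeSet.ncard → v i = v j → i = j) ∧
      (∀ x : V, ∃ i ≤ T.edgeSet.ncard, v i = x) ∧
      (∀ x y : V, T.Adj x y → ∃ i, 1 ≤ i ∧ i ≤ T.edgeSet.ncard ∧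
        ((v i = x ∧ v (p i) = y) ∨ (v i = y ∧ v (p i) = x))) ∧
      M ≤ T.edgeSet.ncard + 2 * ({x : V | 2 ≤ (T.neighborSet x).ncard ∧
        {y : V | T.Adj x y ∧ 2 ≤ (T.neighborSet y).ncard}.ncard ≤ 1}.ncard - 2) *
        min ({x : V | 2 ≤ (T.neighborSet x).ncard ∧
          {y : V | T.Adj x y ∧ 2 ≤ (T.neighborSet y).ncard}.ncard ≤ 1}.ncard - 1) 30 := by
  obtain ⟨l, hl⟩ : ∃ l, l = {x : V | 2 ≤ (T.neighborSet x).ncard ∧
    {y : V | T.Adj x y ∧ 2 ≤ (T.neighborSet y).ncard}.ncard ≤ 1}.ncard := ⟨_, rfl⟩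
  rw [← hl]
  rcases Nat.lt_or_ge 30 (l - 1) with h | h
  · obtain ⟨v, p, Js, q, hE, hL, hinj, hsurj, hadj, hsum⟩ := ord V T hT h1
    obtain ⟨R, hR3, hRd, hRg⟩ := res
    obtain ⟨M, c, s, hG, hM⟩ := wrd _ p Js q R (fun a => 12 * 2 ^ (a / 2)) h1 hE hL hR3 hRd hRg
    refine ⟨v, p, Js, M, c, s, hE, hG, hinj, hsurj, hadj, hM.trans ?_⟩
    rw [min_eq_right h.le, mul_sum]
    rw [← hl] at hsum
    apply Nat.add_le_add_left
    refine hsum.trans ?_
    omega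
  · obtain ⟨v, p, Js, hE, hinj, hsurj, hadj, hJ⟩ := CT.ord V T hT h1
    obtain ⟨M, c, s, hG, hM⟩ := CT.wrd _ p Js h1 hE
    refine ⟨v, p, Js, M, c, s, hE, hG, hinj, hsurj, hadj, hM.trans ?_⟩
    rw [min_eq_left h]
    apply Nat.add_le_add_left
    rw [← hl] at hJ
    rcases hJ with hJ | hJ
    · rw [hJ]
      simp
    · have h2 : Js.card ≤ l - 2 := by omega
      have h3 : Js.card + 1 ≤ l - 1 := by omega
      exact Nat.mul_le_mul (Nat.mul_le_mul_left _ h2) h3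

theorem exists_super {V : Type} [Fintype V] {T : SimpleGraph V} (hT : T.IsTree)
    (h1 : 1 ≤ T.edgeSet.ncard) :
    ∃ (M : ℕ) (T' : SimpleGraph (Fin (M + 1))), T'.IsTree ∧ Graceful T' ∧ T.IsContained T' ∧
      T'.edgeSet.ncard = M ∧
      M ≤ T.edgeSet.ncard + 2 * ({x : V | 2 ≤ (T.neighborSet x).ncard ∧
        {y : V | T.Adj x y ∧ 2 ≤ (T.neighborSet y).ncard}.ncard ≤ 1}.ncard - 2) *
        min ({x : V | 2 ≤ (T.neighborSet x).ncard ∧
          {y : V | T.Adj x y ∧ 2 ≤ (T.neighborSet y).ncard}.ncard ≤ 1}.ncard - 1) 30 := by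
  classical
  obtain ⟨v, p, Js, M, c, s, hE, hG, hinj, hsurj, hadj, hM⟩ := exists_good hT h1
  set m : ℕ := T.edgeSet.ncard with hm
  obtain ⟨T', t1, t2, t3, t4⟩ := CT.sup m p Js M c s h1 hE hG
  refine ⟨M, T', t1, t3, ?_, t2, hM⟩
  choose idx hidx1 hidx2 using hsurj
  have hs : ∀ i ≤ m, s i < M + 1 := by
    intro i hi
    rcases hi.lt_or_eq with h0 | h0
    · have h2 := hG.mono i m h0 le_rfl
      rw [hG.last] at h2
      omega
    · rw [h0, hG.last]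
      exact Nat.lt_succ_self _
  have hsinj : ∀ i j, i ≤ m → j ≤ m → s i = s j → i = j := by
    intro i j hi hj hij
    rcases Nat.lt_trichotomy i j with h | h | h
    · have := hG.mono i j h hj
      omega
    · exact h
    · have := hG.mono j i h hi
      omega
  have hvidx : ∀ i ≤ m, idx (v i) = i := fun i hi => hinj _ _ (hidx1 _) hi (hidx2 _)
  refine ⟨⟨⟨fun x => ⟨s (idx x), hs _ (hidx1 x)⟩, ?_⟩, ?_⟩⟩
  · intro x y hxy
    obtain ⟨i, hi1, hi2, hi3⟩ := hadj x y hxy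
    have hpi : p i ≤ m := (hE.lt i hi1 hi2).le.trans hi2
    rcases hi3 with ⟨ha, hb⟩ | ⟨ha, hb⟩
    · refine t4 i hi1 hi2 _ _ ?_ ?_
      · show s (idx x) = s i
        rw [← ha, hvidx i hi2]
      · show s (idx y) = s (p i)
        rw [← hb, hvidx _ hpi]
    · refine (t4 i hi1 hi2 _ _ ?_ ?_).symm
      · show s (idx y) = s i
        rw [← ha, hvidx i hi2]
      · show s (idx x) = s (p i)
        rw [← hb, hvidx _ hpi]
  · intro x y hxy
    have h2 : s (idx x) = s (idx y) := congrArg (fun z : Fin _ => (z : ℕ)) hxy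
    have h3 := hsinj _ _ (hidx1 x) (hidx1 y) h2
    rw [← hidx2 x, ← hidx2 y, h3]

end Pool.Agent.TH56.CL
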