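import Mathlib

/-!
# Counting multiples of `3`
-/

set_option autoImplicit false

namespace Pool.Agent.TH56.CL

open Finset

/-- few multiples of `3` in a window -/
theorem window {Y : Finset ℕ} {sg : ℕ → ℕ} {a x : ℕ} (h3 : ∀ y ∈ Y, sg y % 3 = 0)
    (hi : ∀ y ∈ Y, ∀ z ∈ Y, sg y = sg z → y = z) (h : ∀ y ∈ Y, a ≤ sg y ∧ sg y < a + x) :
    3 * Y.card ≤ x + 2 := by
  have h1 : Y.card ≤ (Ico ((a + 2) / 3) ((a + x + 2) / 3)).card := by
    apply card_le_card_of_injOn (fun y => sg y / 3)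
    · intro y hy
      rw [mem_coe] at hy
      have h4 := h3 y hy
      have h5 := h y hy
      rw [mem_coe, mem_Ico]
      show (a + 2) / 3 ≤ sg y / 3 ∧ sg y / 3 < (a + x + 2) / 3
      constructor <;> omega
    · intro y hy z hz hyz
      rw [mem_coe] at hy hz
      have h4 := h3 y hy
      have h5 := h3 z hz
      apply hi y hy z hz
      simp only at hyz
      omega
  rw [Nat.card_Ico] at h1
  omega

theorem card_filter_lt {A : Finset ℕ} {sg : ℕ → ℕ} (a b : ℕ) :
    (A.filter (fun j => sg j < b)).card ≤ (A.filter (fun j => sg j < a)).card +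
      (A.filter (fun j => a ≤ sg j ∧ sg j < b)).card := by
  rw [← card_union_of_disjoint]
  · apply card_le_card
    intro j hj
    rw [mem_filter] at hj
    rw [mem_union, mem_filter, mem_filter]
    rcases Nat.lt_or_ge (sg j) a with h | h
    · exact Or.inl ⟨hj.1, h⟩
    · exact Or.inr ⟨hj.1, h, hj.2⟩
  · rw [disjoint_left]
    intro j hj hj'
    rw [mem_filter] at hj hj'
    omega

theorem card_filter_le_of_le {A : Finset ℕ} {sg : ℕ → ℕ} {a b : ℕ} (h : a ≤ b) :
    (A.filter (fun j => sg j < a)).card ≤ (A.filter (fun j => sg j < b)).card := by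
  apply card_le_card
  intro j hj
  rw [mem_filter] at hj ⊢
  exact ⟨hj.1, by omega⟩

theorem key {A : Finset ℕ} {sg : ℕ → ℕ} (h3 : ∀ y ∈ A, sg y % 3 = 0)
    (hi : ∀ y ∈ A, ∀ z ∈ A, sg y = sg z → y = z) {N k W G : ℕ}
    (h1 : N ≤ k + 2 * W + 2 * (1 + (A.filter (fun j => sg j < N)).card))
    (h2 : W + 3 + (A.filter (fun j => sg j < k + 2 * G)).card ≤ G) :
    N ≤ k + 2 * G ∧ (A.filter (fun j => sg j < N)).card + W + 3 ≤ G := by
  have h4 : N ≤ k + 2 * G := by
    by_contra hN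
    push Not at hN
    have h5 := card_filter_lt (A := A) (sg := sg) (k + 2 * G) N
    have h6 := window (Y := A.filter (fun j => k + 2 * G ≤ sg j ∧ sg j < N)) (sg := sg)
      (a := k + 2 * G) (x := N - (k + 2 * G)) (fun y hy => h3 y (mem_filter.1 hy).1)
      (fun y hy z hz => hi y (mem_filter.1 hy).1 z (mem_filter.1 hz).1)
      (fun y hy => ⟨(mem_filter.1 hy).2.1, by have := (mem_filter.1 hy).2.2; omega⟩)
    omega
  have h5 := card_filter_le_of_le (A := A) (sg := sg) h4
  omega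

/-- the plans of a jump -/
theorem plans {A : Finset ℕ} {sg : ℕ → ℕ} (h3 : ∀ y ∈ A, sg y % 3 = 0)
    (hi : ∀ y ∈ A, ∀ z ∈ A, sg y = sg z → y = z) (k W β : ℕ) (hW : 1 ≤ W) :
    ∃ G0, ∀ G, G0 ≤ G → G < G0 + β → W + (A.filter (fun j => sg j < k + 2 * G)).card ≤ G ∧
      G < W + (A.filter (fun j => sg j < k + 2 * G)).card + β := by
  have hex : ∃ G, W + (A.filter (fun j => sg j < k + 2 * G)).card ≤ G :=
    ⟨W + A.card, Nat.add_le_add_left (card_filter_le _ _) _⟩
  obtain ⟨G0, hG0, hmin⟩ : ∃ G0, W + (A.filter (fun j => sg j < k + 2 * G0)).card ≤ G0 ∧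
      ∀ G < G0, ¬ (W + (A.filter (fun j => sg j < k + 2 * G)).card ≤ G) :=
    ⟨Nat.find hex, Nat.find_spec hex, fun G hG => Nat.find_min hex hG⟩
  refine ⟨G0, fun G h1 h2 => ?_⟩
  constructor
  · obtain ⟨d, rfl⟩ : ∃ d, G = G0 + d := ⟨G - G0, by omega⟩
    clear h1 h2
    induction d with
    | zero => exact hG0
    | succ d ih =>
      have h5 := card_filter_lt (A := A) (sg := sg) (k + 2 * (G0 + d)) (k + 2 * (G0 + (d + 1)))
      have h6 := window (Y := A.filter (fun j => k + 2 * (G0 + d) ≤ sg j ∧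
        sg j < k + 2 * (G0 + (d + 1)))) (sg := sg)
        (a := k + 2 * (G0 + d)) (x := 2) (fun y hy => h3 y (mem_filter.1 hy).1)
        (fun y hy z hz => hi y (mem_filter.1 hy).1 z (mem_filter.1 hz).1)
        (fun y hy => ⟨(mem_filter.1 hy).2.1, by have := (mem_filter.1 hy).2.2; omega⟩)
      omega
  · have h4 : 1 ≤ G0 := by omega
    have h5 := hmin (G0 - 1) (by omega)
    have h6 := card_filter_le_of_le (A := A) (sg := sg) (show k + 2 * (G0 - 1) ≤ k + 2 * G by omega)
    omega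

end Pool.Agent.TH56.CL
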