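import Pool.Agent.TH56.CL.Def
import Pool.Agent.TH56.CL.Num
import Pool.Agent.TH56.CT.Wrd

/-!
# Part I: the steps exist

A jump `k` is placed when exactly `G k` holes of each of the two classes have been made. `G k` is
chosen as soon as the parent of `k` has been placed; it counts the special steps before the step of
`k`, which are known exactly, as the jumps are nested.
-/

set_option autoImplicit false

namespace Pool.Agent.TH56.CL

open Finset Pool.Agent.TH56.CT

section st

variable (m : ℕ) (p : ℕ → ℕ) (Js : Finset ℕ) (κ : ℕ → Bool) (q : ℕ → ℕ) (R : ℕ → ℕ → Prop)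
  (g : ℕ → ℕ)

/-- the room reserved for the jumps before `k` -/
def Wt (k : ℕ) : ℕ := ∑ j ∈ Js.filter (fun j => j < k), (g (q j) + 3)

/-- the special step of a jump -/
def sig (c : ℕ → Bool) (s G : ℕ → ℕ) (k : ℕ) : ℕ :=
  cn κ (κ k) k + G k + cn c (κ (p k)) (s (p k)) + 1

/-- the number of the special steps of outer jumps before the step of `k` -/
def Pn (c : ℕ → Bool) (s G : ℕ → ℕ) (k : ℕ) : ℕ :=
  (Js.filter (fun j => k < j ∧ p j ≤ p k ∧ sig p κ c s G j < k + 2 * G k)).card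

/-- the jumps with a plan -/
abbrev dec (i a k : ℕ) : Prop := p k < i ∨ (p k = i ∧ a ≤ k)

/-- the states: the vertices `≤ i` are placed at steps `< N`, and the jumps `k` with
`dec p i a k` have a plan `G k` -/
structure St (i a N : ℕ) (c : ℕ → Bool) (s G : ℕ → ℕ) : Prop where
  hN : N = s i + 1
  c0 : c 0 = false
  c1 : 2 ≤ N → c 1 = true
  s0 : s 0 = 0
  mono : ∀ j l, j < l → l ≤ i → s j < s l
  cls : ∀ j ≤ i, c (s j) = κ j
  reg : ∀ j, 1 ≤ j → j ≤ i → j ∉ Js → ∀ t, s (p j) < t → t < s j → c t = κ j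
  ex : ∀ k ∈ Js, k ≤ i → ∀ b, cn c b (s k) = cn κ b k + G k
  lo : ∀ k ∈ Js, dec p i a k → Wt Js q g k + 3 + Pn p Js κ c s G k ≤ G k
  hi : ∀ k ∈ Js, dec p i a k → G k < Wt Js q g k + 3 + Pn p Js κ c s G k + g (q k)
  res : ∀ k ∈ Js, dec p i a k → R (q k) (sig p κ c s G k)
  inj : ∀ k ∈ Js, ∀ l ∈ Js, dec p i a k → dec p i a l →
    sig p κ c s G k = sig p κ c s G l → k = l
  hole : ∀ k ∈ Js, dec p i a k → sig p κ c s G k < N →
    (∃ l ∈ Js, l ≤ i ∧ sig p κ c s G k = s l) ∨
    ((∀ j ≤ i, s j ≠ sig p κ c s G k) ∧ c (sig p κ c s G k + 1) = c (sig p κ c s G k) ∧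
      sig p κ c s G k + 1 < N)
  ge : ∀ k ∈ Js, dec p i a k → p k = i → N ≤ sig p κ c s G k
  bd : ∀ b, cn c b N ≤ cn κ b (i + 1) + Wt Js q g (i + 1) +
    (Js.filter (fun j => i < j ∧ dec p i a j ∧ sig p κ c s G j < N)).card

variable {m p Js κ q R g}

theorem Wt_succ_of_notMem {k : ℕ} (h : k ∉ Js) : Wt Js q g (k + 1) = Wt Js q g k := by
  unfold Wt
  congr 1
  apply filter_congr
  intro l hl
  constructor
  · intro h1
    rcases Nat.lt_succ_iff_lt_or_eq.1 h1 with h3 | h3
    · exact h3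
    · subst h3
      exact absurd hl h
  · intro h1
    omega

theorem Wt_succ_of_mem {k : ℕ} (h : k ∈ Js) : Wt Js q g (k + 1) = Wt Js q g k + (g (q k) + 3) := by
  unfold Wt
  have h1 : Js.filter (fun l => l < k + 1) = insert k (Js.filter (fun l => l < k)) := by
    ext l
    rw [mem_insert, mem_filter, mem_filter]
    constructor
    · rintro ⟨h1, h2⟩
      rcases Nat.lt_succ_iff_lt_or_eq.1 h2 with h4 | h4
      · exact Or.inr ⟨h1, h4⟩
      · exact Or.inl h4
    · rintro (h1 | ⟨h1, h2⟩)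
      · subst h1
        exact ⟨h, by omega⟩
      · exact ⟨h1, by omega⟩
  rw [h1, sum_insert (by simp)]
  omega

theorem Wt_mono {k l : ℕ} (h : k ≤ l) : Wt Js q g k ≤ Wt Js q g l := by
  unfold Wt
  apply sum_le_sum_of_subset
  intro x hx
  rw [mem_filter] at hx ⊢
  exact ⟨hx.1, by omega⟩

/-- the jumps between two jumps are counted in `Wt` -/
theorem Wt_between {k l : ℕ} (hk : k ∈ Js) (h : k < l) :
    Wt Js q g k + (g (q k) + 3) + 3 * (Js.filter (fun j => k < j ∧ j < l)).card ≤ Wt Js q g l := by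
  rw [← Wt_succ_of_mem hk]
  have h1 : Wt Js q g l = Wt Js q g (k + 1) +
      ∑ j ∈ Js.filter (fun j => k < j ∧ j < l), (g (q j) + 3) := by
    unfold Wt
    rw [← sum_union]
    · congr 1
      ext j
      rw [mem_union, mem_filter, mem_filter, mem_filter]
      constructor
      · rintro ⟨h1, h2⟩
        rcases Nat.lt_or_ge k j with h3 | h3
        · exact Or.inr ⟨h1, h3, h2⟩
        · exact Or.inl ⟨h1, by omega⟩
      · rintro (⟨h1, h2⟩ | ⟨h1, h2, h3⟩)
        · exact ⟨h1, by omega⟩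
        · exact ⟨h1, h3⟩
    · rw [disjoint_left]
      intro j hj hj'
      rw [mem_filter] at hj hj'
      omega
  rw [h1]
  apply Nat.add_le_add_left
  rw [Nat.mul_comm, ← smul_eq_mul, ← sum_const]
  apply sum_le_sum
  intro j _
  omega

theorem St.slt {i a N : ℕ} {c : ℕ → Bool} {s G : ℕ → ℕ} (h : St p Js κ q R g i a N c s G) {j : ℕ}
    (hj : j ≤ i) : s j < N := by
  have h1 := h.hN
  rcases hj.lt_or_eq with h2 | h2
  · have := h.mono j i h2 le_rfl
    omega
  · subst h2
    omega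

/-- placed jumps are after their special steps -/
theorem St.sig_le (hE : Enum m p Js) (hκ : ∀ i, 1 ≤ i → i ≤ m → κ i = !κ (p i))
    {i a N : ℕ} {c : ℕ → Bool} {s G : ℕ → ℕ}
    (h : St p Js κ q R g i a N c s G) {k : ℕ} (hk : k ∈ Js) (hki : k ≤ i) :
    sig p κ c s G k ≤ s k := by
  have h1 := hE.sub k hk
  have h2 := hE.lt k h1.1 h1.2
  have h3 := h.ex k hk hki (κ k)
  have h4 : κ (p k) = !κ k := by rw [hκ k h1.1 h1.2]; simp
  have h5 : cn c (κ (p k)) (s (p k)) + 1 ≤ cn c (κ (p k)) (s k) :=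
    cn_lt (h.mono (p k) k h2 hki) (h.cls (p k) (by omega))
  have h6 := cn_add c (κ k) (s k)
  rw [← h4] at h6
  unfold sig
  omega

theorem sum_cn (c : ℕ → Bool) (t : ℕ) : cn c false t + cn c true t = t := cn_add c false t

/-- the open jumps whose special steps are over -/
theorem St.room {i a N : ℕ} {c : ℕ → Bool} {s G : ℕ → ℕ} (h : St p Js κ q R g i a N c s G) :
    N ≤ (i + 1) + 2 * Wt Js q g (i + 1) +
      2 * (Js.filter (fun j => i < j ∧ dec p i a j ∧ sig p κ c s G j < N)).card := by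
  have h1 := h.bd false
  have h2 := h.bd true
  have h3 := sum_cn c N
  have h4 := sum_cn κ (i + 1)
  omega

theorem St.dec_next (hE : Enum m p Js) (hL : Lvl p Js q)
    (hκ : ∀ i, 1 ≤ i → i ≤ m → κ i = !κ (p i))
    (hR3 : ∀ a t, R a t → t % 3 = 0) (hRd : ∀ a b t, R a t → R b t → a = b)
    (hRg : ∀ a N, ∃ t, N ≤ t ∧ t < N + g a ∧ R a t)
    {i a N : ℕ} {c : ℕ → Bool} {s G : ℕ → ℕ}
    (h : St p Js κ q R g i (a + 1) N c s G) : ∃ G', St p Js κ q R g i a N c s G' := by
  by_cases ha : a ∈ Js ∧ p a = i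
  swap
  · have hd : ∀ k ∈ Js, (dec p i a k ↔ dec p i (a + 1) k) := by
      intro k hk
      constructor
      · rintro (h1 | ⟨h1, h2⟩)
        · exact Or.inl h1
        · rcases h2.lt_or_eq with h3 | h3
          · exact Or.inr ⟨h1, h3⟩
          · subst h3
            exact absurd ⟨hk, h1⟩ ha
      · rintro (h1 | ⟨h1, h2⟩)
        · exact Or.inl h1
        · exact Or.inr ⟨h1, by omega⟩
    refine ⟨G, h.hN, h.c0, h.c1, h.s0, h.mono, h.cls, h.reg, h.ex,
      fun k hk hk2 => h.lo k hk ((hd k hk).1 hk2), fun k hk hk2 => h.hi k hk ((hd k hk).1 hk2),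
      fun k hk hk2 => h.res k hk ((hd k hk).1 hk2),
      fun k hk l hl hk2 hl2 => h.inj k hk l hl ((hd k hk).1 hk2) ((hd l hl).1 hl2),
      fun k hk hk2 => h.hole k hk ((hd k hk).1 hk2),
      fun k hk hk2 => h.ge k hk ((hd k hk).1 hk2), ?_⟩
    intro b
    have h1 : Js.filter (fun j => i < j ∧ dec p i a j ∧ sig p κ c s G j < N) =
        Js.filter (fun j => i < j ∧ dec p i (a + 1) j ∧ sig p κ c s G j < N) := by
      apply filter_congr
      intro j hj
      rw [hd j hj]
    rw [h1]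
    exact h.bd b
  obtain ⟨haJ, hai⟩ := ha
  have ha1 := hE.sub a haJ
  have hia : i < a := by
    have := hE.lt a ha1.1 ha1.2
    omega
  -- the outer jumps
  obtain ⟨A, hA⟩ : ∃ A : Finset ℕ, A = Js.filter (fun j => a < j ∧ p j ≤ i) := ⟨_, rfl⟩
  have hAm : ∀ j, j ∈ A ↔ j ∈ Js ∧ a < j ∧ p j ≤ i := by
    intro j
    rw [hA, mem_filter]
  have hAd : ∀ j ∈ A, dec p i (a + 1) j := by
    intro j hj
    rw [hAm] at hj
    rcases hj.2.2.lt_or_eq with h1 | h1
    · exact Or.inl h1
    · exact Or.inr ⟨h1, hj.2.1⟩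
  have hA3 : ∀ j ∈ A, sig p κ c s G j % 3 = 0 := fun j hj =>
    hR3 _ _ (h.res j ((hAm j).1 hj).1 (hAd j hj))
  have hAi : ∀ y ∈ A, ∀ z ∈ A, sig p κ c s G y = sig p κ c s G z → y = z := fun y hy z hz =>
    h.inj y ((hAm y).1 hy).1 z ((hAm z).1 hz).1 (hAd y hy) (hAd z hz)
  -- jumps with a plan which are not placed are in `A` if their parents are before `i`
  have hout : ∀ j ∈ Js, i < j → p j < i → a < j := by
    intro j hj h1 h2
    by_contra h3
    rcases (not_lt.1 h3).lt_or_eq with h4 | h4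
    · have := hL.lam a haJ j hj (by omega) h4
      omega
    · subst h4
      omega
  obtain ⟨G0, hG0⟩ := plans hA3 hAi a (Wt Js q g a + 3) (g (q a)) (by omega)
  obtain ⟨t, ht1, ht2, ht3⟩ := hRg (q a) (cn κ (κ a) a + G0 + cn c (κ i) (s i) + 1)
  obtain ⟨Ga, hGa⟩ : ∃ Ga, t = cn κ (κ a) a + Ga + cn c (κ i) (s i) + 1 :=
    ⟨t - (cn κ (κ a) a + cn c (κ i) (s i) + 1), by omega⟩
  obtain ⟨lo1, hi1⟩ := hG0 Ga (by omega) (by omega)
  have hC : (Js.filter (fun j => i < j ∧ dec p i (a + 1) j ∧ sig p κ c s G j < N)).card ≤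
      (A.filter (fun j => sig p κ c s G j < N)).card := by
    apply card_le_card
    intro j hj
    rw [mem_filter] at hj
    obtain ⟨h1, h2, h3, h4⟩ := hj
    rw [mem_filter, hAm]
    rcases h3 with h5 | ⟨h5, h6⟩
    · exact ⟨⟨h1, hout j h1 h2 h5, h5.le⟩, h4⟩
    · exact ⟨⟨h1, by omega, h5.le⟩, h4⟩
  have hroom := h.room
  have hW1 : Wt Js q g (i + 1) ≤ Wt Js q g a := Wt_mono hia
  obtain ⟨k1, k2⟩ := key hA3 hAi (N := N) (k := a) (W := Wt Js q g a) (G := Ga) (by omega)
    (by omega)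
  have htN : N ≤ t := by
    have h1 := h.bd (κ a)
    have h2 : cn κ (κ a) (i + 1) ≤ cn κ (κ a) a := cn_mono _ _ hia
    have h3 : κ i = !κ a := by rw [hκ a ha1.1 ha1.2, hai]; simp
    have h4 := cn_add c (κ a) (s i)
    rw [← h3] at h4
    have h5 : cn c (κ a) (s i) ≤ cn c (κ a) N := cn_mono _ _ (h.slt le_rfl).le
    have h6 := h.hN
    omega
  obtain ⟨G', hG'⟩ : ∃ G' : ℕ → ℕ, G' = Function.update G a Ga := ⟨_, rfl⟩
  have g1 : G' a = Ga := by rw [hG', Function.update_self]
  have g2 : ∀ j, j ≠ a → G' j = G j := fun j hj => by rw [hG', Function.update_of_ne hj]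
  have s1 : sig p κ c s G' a = t := by
    unfold sig
    rw [g1, hai, hGa]
  have s2 : ∀ j, j ≠ a → sig p κ c s G' j = sig p κ c s G j := by
    intro j hj
    unfold sig
    rw [g2 j hj]
  have hdec : ∀ k ∈ Js, dec p i a k → k ≠ a → dec p i (a + 1) k := by
    rintro k _ (h1 | ⟨h1, h2⟩) h3
    · exact Or.inl h1
    · exact Or.inr ⟨h1, by omega⟩
  have hPn : ∀ k ∈ Js, dec p i a k → k ≠ a → Pn p Js κ c s G' k = Pn p Js κ c s G k := by
    intro k hk hk2 hk3
    unfold Pn
    congr 1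
    apply filter_congr
    intro j hj
    have h1 : ¬ (k < j ∧ p j ≤ p k ∧ j = a) := by
      rintro ⟨h1, h2, h3⟩
      subst h3
      rcases hk2 with h4 | ⟨h4, h5⟩
      · omega
      · omega
    constructor
    · rintro ⟨h2, h3, h4⟩
      have h5 : j ≠ a := fun h5 => h1 ⟨h2, h3, h5⟩
      rw [s2 j h5, g2 k hk3] at h4
      exact ⟨h2, h3, h4⟩
    · rintro ⟨h2, h3, h4⟩
      have h5 : j ≠ a := fun h5 => h1 ⟨h2, h3, h5⟩
      rw [s2 j h5, g2 k hk3]
      exact ⟨h2, h3, h4⟩
  have hPa : Pn p Js κ c s G' a = (A.filter (fun j => sig p κ c s G j < a + 2 * Ga)).card := by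
    unfold Pn
    congr 1
    ext j
    rw [mem_filter, mem_filter, hAm, hai, g1]
    constructor
    · rintro ⟨h1, h2, h3, h4⟩
      rw [s2 j (by omega)] at h4
      exact ⟨⟨h1, h2, h3⟩, h4⟩
    · rintro ⟨⟨h1, h2, h3⟩, h4⟩
      rw [s2 j (by omega)]
      exact ⟨h1, h2, h3, h4⟩
  -- the new special step is different from the old ones
  have hnew : ∀ j ∈ Js, dec p i (a + 1) j → t ≠ sig p κ c s G j := by
    intro j hj hj2 hj3
    rcases Nat.lt_or_ge i j with h1 | h1
    swap
    · have h2 := h.sig_le hE hκ hj h1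
      have h3 := h.slt h1
      omega
    rcases hj2 with h2 | ⟨h2, h3⟩
    · have h3 := hout j hj h1 h2
      have h4 := hL.lev j hj a haJ (by omega) (by omega)
      have h5 := h.res j hj (Or.inl h2)
      rw [← hj3] at h5
      have h6 := hRd _ _ _ ht3 h5
      omega
    · have hj1 := hE.sub j hj
      have hκj : κ j = κ a := by
        rw [hκ j hj1.1 hj1.2, hκ a ha1.1 ha1.2, h2, hai]
      have hT : cn κ (κ a) a + 1 ≤ cn κ (κ a) j := cn_lt (by omega) rfl
      obtain ⟨B, hB⟩ : ∃ B : Finset ℕ, B = Js.filter (fun l => j < l ∧ p l ≤ p j) := ⟨_, rfl⟩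
      have hBA : ∀ l ∈ B, l ∈ A := by
        intro l hl
        rw [hB, mem_filter] at hl
        rw [hAm]
        exact ⟨hl.1, by omega, by omega⟩
      have hlo := h.lo j hj (Or.inr ⟨h2, h3⟩)
      have hPj : Pn p Js κ c s G j = (B.filter (fun l => sig p κ c s G l < j + 2 * G j)).card := by
        unfold Pn
        congr 1
        ext l
        rw [mem_filter, mem_filter, hB, mem_filter]
        tauto
      have hbt := Wt_between (q := q) (g := g) haJ (show a < j by omega)
      have hcard : (A.filter (fun l => sig p κ c s G l < a + 2 * Ga)).card ≤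
          (Js.filter (fun l => a < l ∧ l < j)).card + 1 +
          (B.filter (fun l => sig p κ c s G l < a + 2 * Ga)).card := by
        have h4 : A.filter (fun l => sig p κ c s G l < a + 2 * Ga) ⊆
            insert j (Js.filter (fun l => a < l ∧ l < j)) ∪
            B.filter (fun l => sig p κ c s G l < a + 2 * Ga) := by
          intro l hl
          rw [mem_filter, hAm] at hl
          rw [mem_union, mem_insert, mem_filter, mem_filter, hB, mem_filter]
          rcases lt_trichotomy l j with h5 | h5 | h5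
          · exact Or.inl (Or.inr ⟨hl.1.1, hl.1.2.1, h5⟩)
          · exact Or.inl (Or.inl h5)
          · exact Or.inr ⟨⟨hl.1.1, h5, by omega⟩, hl.2⟩
        have h5 := (card_le_card h4).trans (card_union_le _ _)
        have h6 := card_insert_le j (Js.filter (fun l => a < l ∧ l < j))
        omega
      obtain ⟨k3, k4⟩ := key (A := B) (sg := sig p κ c s G) (fun y hy => hA3 y (hBA y hy))
        (fun y hy z hz => hAi y (hBA y hy) z (hBA z hz)) (N := a + 2 * Ga) (k := j)
        (W := Wt Js q g j) (G := G j) (by omega) (by omega)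
      have h7 : sig p κ c s G j = cn κ (κ a) j + G j + cn c (κ i) (s i) + 1 := by
        unfold sig
        rw [h2, hκj]
      omega
  refine ⟨G', h.hN, h.c0, h.c1, h.s0, h.mono, h.cls, h.reg, ?_, ?_, ?_, ?_, ?_, ?_, ?_, ?_⟩
  · intro k hk hki b
    rw [g2 k (by omega)]
    exact h.ex k hk hki b
  · intro k hk hk2
    by_cases hka : k = a
    · subst hka
      rw [hPa, g1]
      exact lo1
    · rw [hPn k hk hk2 hka, g2 k hka]
      exact h.lo k hk (hdec k hk hk2 hka)
  · intro k hk hk2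
    by_cases hka : k = a
    · subst hka
      rw [hPa, g1]
      exact hi1
    · rw [hPn k hk hk2 hka, g2 k hka]
      exact h.hi k hk (hdec k hk hk2 hka)
  · intro k hk hk2
    by_cases hka : k = a
    · subst hka
      rw [s1]
      exact ht3
    · rw [s2 k hka]
      exact h.res k hk (hdec k hk hk2 hka)
  · intro k hk l hl hk2 hl2 hkl
    by_cases hka : k = a
    · subst hka
      by_cases hla : l = k
      · exact hla.symm
      · rw [s1, s2 l hla] at hkl
        exact absurd hkl (hnew l hl (hdec l hl hl2 hla))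
    · by_cases hla : l = a
      · subst hla
        rw [s1, s2 k hka] at hkl
        exact absurd hkl.symm (hnew k hk (hdec k hk hk2 hka))
      · rw [s2 k hka, s2 l hla] at hkl
        exact h.inj k hk l hl (hdec k hk hk2 hka) (hdec l hl hl2 hla) hkl
  · intro k hk hk2 hlt
    by_cases hka : k = a
    · subst hka
      rw [s1] at hlt
      omega
    · rw [s2 k hka] at hlt ⊢
      exact h.hole k hk (hdec k hk hk2 hka) hlt
  · intro k hk hk2 hki
    by_cases hka : k = a
    · subst hka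
      rw [s1]
      exact htN
    · rw [s2 k hka]
      exact h.ge k hk (hdec k hk hk2 hka) hki
  · intro b
    refine (h.bd b).trans (Nat.add_le_add_left (card_le_card ?_) _)
    intro j hj
    rw [mem_filter] at hj ⊢
    obtain ⟨h1, h2, h3, h4⟩ := hj
    have h5 : j ≠ a := by
      rintro rfl
      rcases h3 with h5 | ⟨h5, h6⟩ <;> omega
    refine ⟨h1, h2, ?_, by rw [s2 j h5]; exact h4⟩
    rcases h3 with h6 | ⟨h6, h7⟩
    · exact Or.inl h6
    · exact Or.inr ⟨h6, by omega⟩

theorem St.dec_all (hE : Enum m p Js) (hL : Lvl p Js q)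
    (hκ : ∀ i, 1 ≤ i → i ≤ m → κ i = !κ (p i))
    (hR3 : ∀ a t, R a t → t % 3 = 0) (hRd : ∀ a b t, R a t → R b t → a = b)
    (hRg : ∀ a N, ∃ t, N ≤ t ∧ t < N + g a ∧ R a t)
    {i N : ℕ} {c : ℕ → Bool} {s : ℕ → ℕ} : ∀ (a : ℕ) (G : ℕ → ℕ),
    St p Js κ q R g i a N c s G → ∃ G', St p Js κ q R g i 0 N c s G' := by
  intro a
  induction a with
  | zero => exact fun G h => ⟨G, h⟩
  | succ a ih =>
    intro G h
    obtain ⟨G', hG'⟩ := h.dec_next hE hL hκ hR3 hRd hRg
    exact ih G' hG'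

/-- placing the next vertex -/
theorem St.ext (hE : Enum m p Js) (hκ0 : κ 0 = false)
    (hκ : ∀ i, 1 ≤ i → i ≤ m → κ i = !κ (p i)) (hone : 1 ∉ Js) {i N : ℕ} {c : ℕ → Bool}
    {s G : ℕ → ℕ} (h : St p Js κ q R g i 0 N c s G) (him : i + 1 ≤ m) (L : ℕ) (c' : ℕ → Bool)
    (e1 : ∀ t, t < N → c' t = c t) (e2 : c' (N + L) = κ (i + 1))
    (hr : i + 1 ∉ Js → ∀ t, N ≤ t → t < N + L → c' t = κ (i + 1))
    (hd : ∀ k ∈ Js, p k ≤ i → N ≤ sig p κ c s G k → sig p κ c s G k < N + L →
      c' (sig p κ c s G k + 1) = c' (sig p κ c s G k))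
    (hn : i + 1 ∉ Js → ∀ k ∈ Js, p k ≤ i → sig p κ c s G k ≠ N + L)
    (hx : i + 1 ∈ Js → ∀ b, cn c' b (N + L) = cn κ b (i + 1) + G (i + 1))
    (hb : ∀ b, cn c' b (N + L + 1) ≤ cn κ b (i + 1 + 1) + Wt Js q g (i + 1 + 1) +
      (Js.filter (fun j => i + 1 < j ∧ p j ≤ i ∧ sig p κ c s G j < N + L + 1)).card) :
    St p Js κ q R g (i + 1) (m + 1) (N + L + 1) c' (Function.update s (i + 1) (N + L)) G := by
  obtain ⟨s', hs'⟩ : ∃ s' : ℕ → ℕ, s' = Function.update s (i + 1) (N + L) := ⟨_, rfl⟩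
  rw [← hs']
  have s1 : ∀ j, j ≤ i → s' j = s j := fun j hj => by
    rw [hs']
    exact Function.update_of_ne (by omega) _ _
  have s2 : s' (i + 1) = N + L := by rw [hs']; exact Function.update_self _ _ _
  have hcn : ∀ b t, t ≤ N → cn c' b t = cn c b t := fun b t ht =>
    cn_congr (fun u hu => e1 u (by omega)) b
  have hN1 : 1 ≤ N := by have := h.hN; omega
  have hsig : ∀ k, p k ≤ i → sig p κ c' s' G k = sig p κ c s G k := by
    intro k hk
    unfold sig
    rw [s1 _ hk, hcn _ _ (h.slt hk).le]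
  have hpi : p (i + 1) < i + 1 := hE.lt (i + 1) (by omega) him
  have hdec : ∀ k ∈ Js, dec p (i + 1) (m + 1) k → p k ≤ i ∧ dec p i 0 k := by
    rintro k hk (h1 | ⟨h1, h2⟩)
    · refine ⟨by omega, ?_⟩
      rcases (Nat.lt_succ_iff.1 h1).lt_or_eq with h3 | h3
      · exact Or.inl h3
      · exact Or.inr ⟨h3, Nat.zero_le _⟩
    · have := (hE.sub k hk).2
      omega
  have hPn : ∀ k ∈ Js, p k ≤ i → Pn p Js κ c' s' G k = Pn p Js κ c s G k := by
    intro k hk hk2
    unfold Pn
    congr 1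
    apply filter_congr
    intro j hj
    constructor
    · rintro ⟨h1, h2, h3⟩
      rw [hsig j (by omega)] at h3
      exact ⟨h1, h2, h3⟩
    · rintro ⟨h1, h2, h3⟩
      rw [hsig j (by omega)]
      exact ⟨h1, h2, h3⟩
  refine ⟨by rw [s2], ?_, ?_, ?_, ?_, ?_, ?_, ?_, ?_, ?_, ?_, ?_, ?_, ?_, ?_⟩
  · rw [e1 0 hN1, h.c0]
  · intro _
    rcases Nat.lt_or_ge 1 N with h2 | h2
    · rw [e1 1 h2, h.c1 h2]
    · have hi0 : i = 0 := by
        by_contra hne
        have h3 := h.mono 0 i (by omega) le_rfl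
        have h4 := h.hN
        omega
      subst hi0
      have h3 : κ 1 = true := by
        rw [hκ 1 le_rfl him]
        have : p 1 = 0 := by
          have : p (0 + 1) < 0 + 1 := hpi
          simpa using this
        rw [this, hκ0]
        rfl
      rcases Nat.lt_or_ge 1 (N + L) with h4 | h4
      · rw [hr hone 1 (by omega) h4]
        exact h3
      · have h5 : N + L = 1 := by omega
        rw [h5] at e2
        rw [e2]
        exact h3
  · rw [s1 0 (by omega), h.s0]
  · intro j l hjl hl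
    rcases hl.lt_or_eq with h2 | h2
    · rw [s1 j (by omega), s1 l (by omega)]
      exact h.mono j l hjl (by omega)
    · rw [h2, s2, s1 j (by omega)]
      have := h.slt (j := j) (by omega)
      omega
  · intro j hj
    rcases hj.lt_or_eq with h2 | h2
    · rw [s1 j (by omega), e1 _ (h.slt (by omega)), h.cls j (by omega)]
    · rw [h2, s2, e2]
  · intro j hj1 hj hjJ t ht1 ht2
    rcases hj.lt_or_eq with h2 | h2
    · have hpj := hE.lt j hj1 (by omega)
      rw [s1 _ (by omega)] at ht1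
      rw [s1 _ (by omega)] at ht2
      have h3 := h.slt (j := j) (by omega)
      rw [e1 _ (by omega)]
      exact h.reg j hj1 (by omega) hjJ t ht1 ht2
    · subst h2
      rw [s1 _ (by omega)] at ht1
      rw [s2] at ht2
      rcases Nat.lt_or_ge t N with h3 | h3
      · rw [e1 t h3]
        rcases hE.reg (i + 1) (by omega) him hjJ with h4 | ⟨h4, h5, h6⟩
        · have h7 : p (i + 1) = i := by omega
          rw [h7] at ht1
          have := h.hN
          omega
        · rw [Nat.add_sub_cancel] at h5 h6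
          rw [h6] at ht1
          have h8 : κ (i + 1) = κ i := by
            rw [hκ (i + 1) (by omega) him, hκ i (by omega) (by omega), h6]
          rw [h8]
          rcases Nat.lt_or_ge t (s i) with h9 | h9
          · exact h.reg i (by omega) le_rfl h5 t ht1 h9
          · have h10 : t = s i := by have := h.hN; omega
            rw [h10, h.cls i le_rfl]
      · exact hr hjJ t h3 ht2
  · intro k hk hki b
    rcases hki.lt_or_eq with h2 | h2
    · rw [s1 k (by omega), hcn _ _ (h.slt (by omega)).le]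
      exact h.ex k hk (by omega) b
    · subst h2
      rw [s2]
      exact hx hk b
  · intro k hk hk2
    obtain ⟨h1, h2⟩ := hdec k hk hk2
    rw [hPn k hk h1]
    exact h.lo k hk h2
  · intro k hk hk2
    obtain ⟨h1, h2⟩ := hdec k hk hk2
    rw [hPn k hk h1]
    exact h.hi k hk h2
  · intro k hk hk2
    obtain ⟨h1, h2⟩ := hdec k hk hk2
    rw [hsig k h1]
    exact h.res k hk h2
  · intro k hk l hl hk2 hl2 hkl
    obtain ⟨h1, h2⟩ := hdec k hk hk2
    obtain ⟨h3, h4⟩ := hdec l hl hl2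
    rw [hsig k h1, hsig l h3] at hkl
    exact h.inj k hk l hl h2 h4 hkl
  · intro k hk hk2 hlt
    obtain ⟨h1, h2⟩ := hdec k hk hk2
    rw [hsig k h1] at hlt ⊢
    rcases Nat.lt_or_ge (sig p κ c s G k) N with h3 | h3
    · rcases h.hole k hk h2 h3 with ⟨l, h4, h5, h6⟩ | ⟨h4, h5, h6⟩
      · exact Or.inl ⟨l, h4, by omega, by rw [s1 l h5, h6]⟩
      · refine Or.inr ⟨?_, ?_, by omega⟩
        · intro j hj
          rcases hj.lt_or_eq with h7 | h7
          · rw [s1 j (by omega)]
            exact h4 j (by omega)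
          · rw [h7, s2]
            omega
        · rw [e1 _ h6, e1 _ (by omega), h5]
    · rcases Nat.lt_or_ge (sig p κ c s G k) (N + L) with h4 | h4
      · refine Or.inr ⟨?_, hd k hk h1 h3 h4, by omega⟩
        intro j hj
        rcases hj.lt_or_eq with h7 | h7
        · rw [s1 j (by omega)]
          have := h.slt (j := j) (by omega)
          omega
        · rw [h7, s2]
          omega
      · by_cases hJ : i + 1 ∈ Js
        · exact Or.inl ⟨i + 1, hJ, le_rfl, by rw [s2]; omega⟩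
        · exact absurd (by omega) (hn hJ k hk h1)
  · rintro k hk hk2 hki
    rcases hk2 with h1 | ⟨h1, h2⟩
    · omega
    · have := (hE.sub k hk).2
      omega
  · intro b
    refine (hb b).trans (Nat.add_le_add_left (card_le_card ?_) _)
    intro j hj
    rw [mem_filter] at hj ⊢
    obtain ⟨h1, h2, h3, h4⟩ := hj
    exact ⟨h1, h2, Or.inl (by omega), by rw [hsig j h3]; exact h4⟩

/-- placing a vertex which is no jump -/
theorem St.ext_reg (hE : Enum m p Js) (hκ0 : κ 0 = false)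
    (hκ : ∀ i, 1 ≤ i → i ≤ m → κ i = !κ (p i)) (hone : 1 ∉ Js) {i N : ℕ} {c : ℕ → Bool}
    {s G : ℕ → ℕ} (h : St p Js κ q R g i 0 N c s G) (him : i + 1 ≤ m) (hJ : i + 1 ∉ Js) :
    ∃ (N' : ℕ) (c' : ℕ → Bool) (s' G' : ℕ → ℕ), St p Js κ q R g (i + 1) (m + 1) N' c' s' G' := by
  have hex : ∃ L, ∀ k ∈ Js, p k ≤ i → sig p κ c s G k ≠ N + L := by
    refine ⟨(Js.sup (sig p κ c s G)) + 1, fun k hk _ h1 => ?_⟩
    have h2 : sig p κ c s G k ≤ Js.sup (sig p κ c s G) := Finset.le_sup hk
    omega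
  obtain ⟨L, hL2, hL1⟩ : ∃ L, (∀ k ∈ Js, p k ≤ i → sig p κ c s G k ≠ N + L) ∧
      ∀ x < L, ∃ k ∈ Js, p k ≤ i ∧ sig p κ c s G k = N + x := by
    classical
    refine ⟨Nat.find hex, Nat.find_spec hex, fun x hx => ?_⟩
    have h1 := Nat.find_min hex hx
    push Not at h1
    exact h1
  obtain ⟨c', hc'⟩ : ∃ c' : ℕ → Bool, c' = (fun t => if t < N then c t else κ (i + 1)) := ⟨_, rfl⟩
  have c1 : ∀ t, t < N → c' t = c t := fun t ht => by rw [hc']; simp [ht]
  have c2 : ∀ t, N ≤ t → c' t = κ (i + 1) := fun t ht => by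
    rw [hc']; simp [Nat.not_lt.2 ht]
  have hcn : ∀ b t, t ≤ N → cn c' b t = cn c b t := fun b t ht =>
    cn_congr (fun u hu => c1 u (by omega)) b
  have hcn2 : ∀ x, cn c' (κ (i + 1)) (N + x) = cn c (κ (i + 1)) N + x := fun x => by
    rw [cn_const x (fun u h1 _ => c2 u h1), hcn _ N le_rfl]
  have hcn3 : ∀ x, cn c' (!κ (i + 1)) (N + x) = cn c (!κ (i + 1)) N := fun x => by
    rw [cn_const' x (fun u h1 _ => c2 u h1), hcn _ N le_rfl]
  refine ⟨N + L + 1, c', Function.update s (i + 1) (N + L), G,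
    h.ext hE hκ0 hκ hone him L c' c1 (c2 _ (by omega)) (fun _ t h1 _ => c2 t h1)
    (fun k _ _ h1 _ => by rw [c2 _ h1, c2 _ (by omega)]) (fun _ => hL2) (fun h1 => absurd h1 hJ) ?_⟩
  intro b
  have hsub : (Js.filter (fun j => i < j ∧ dec p i 0 j ∧ sig p κ c s G j < N)) ⊆
      (Js.filter (fun j => i + 1 < j ∧ p j ≤ i ∧ sig p κ c s G j < N + L + 1)) := by
    intro j hj
    rw [mem_filter] at hj ⊢
    obtain ⟨h1, h2, h3, h4⟩ := hj
    have h5 : j ≠ i + 1 := by
      rintro rfl
      exact hJ h1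
    refine ⟨h1, by omega, ?_, by omega⟩
    rcases h3 with h6 | ⟨h6, _⟩ <;> omega
  have hbd := h.bd b
  have hcn4 : cn κ b (i + 1 + 1) = cn κ b (i + 1) + if κ (i + 1) = b then 1 else 0 :=
    cn_succ κ b (i + 1)
  rw [Wt_succ_of_notMem hJ]
  by_cases hb : κ (i + 1) = b
  · rw [if_pos hb] at hcn4
    have h1 : cn c' b (N + L + 1) = cn c b N + L + 1 := by
      rw [← hb, Nat.add_assoc, hcn2]
      rfl
    rw [h1, hcn4]
    -- the `L` holes are counted
    choose! f hf using hL1
    have hinj : Set.InjOn f (range L : Set ℕ) := by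
      intro x hx y hy hxy
      rw [mem_coe, mem_range] at hx hy
      have h7 := (hf x hx).2.2
      have h8 := (hf y hy).2.2
      rw [hxy, h8] at h7
      omega
    have hdis : Disjoint (Js.filter (fun j => i < j ∧ dec p i 0 j ∧ sig p κ c s G j < N))
        ((range L).image f) := by
      rw [disjoint_left]
      intro k hk hk2
      rw [mem_filter] at hk
      rw [mem_image] at hk2
      obtain ⟨x, hx, rfl⟩ := hk2
      rw [mem_range] at hx
      have := (hf x hx).2.2
      omega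
    have hsub2 : (Js.filter (fun j => i < j ∧ dec p i 0 j ∧ sig p κ c s G j < N)) ∪
        ((range L).image f) ⊆
        (Js.filter (fun j => i + 1 < j ∧ p j ≤ i ∧ sig p κ c s G j < N + L + 1)) := by
      apply union_subset hsub
      intro k hk2
      rw [mem_image] at hk2
      obtain ⟨x, hx, rfl⟩ := hk2
      rw [mem_range] at hx
      obtain ⟨h7, h8, h9⟩ := hf x hx
      rw [mem_filter]
      refine ⟨h7, ?_, h8, by omega⟩
      by_contra h10
      rcases (not_lt.1 h10).lt_or_eq with h11 | h11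
      · have h12 := h.sig_le hE hκ h7 (show f x ≤ i by omega)
        have h13 := h.slt (show f x ≤ i by omega)
        omega
      · rw [h11] at h7
        exact hJ h7
    have h7 := card_le_card hsub2
    rw [card_union_of_disjoint hdis, card_image_of_injOn hinj, card_range] at h7
    omega
  · rw [if_neg hb, Nat.add_zero] at hcn4
    have hb' : b = !κ (i + 1) := by
      clear * - hb
      revert hb
      cases κ (i + 1) <;> cases b <;> simp
    have h1 : cn c' b (N + L + 1) = cn c b N := by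
      rw [hb', Nat.add_assoc, hcn3]
    have h2 := card_le_card hsub
    rw [h1, hcn4]
    omega

/-- placing a jump -/
theorem St.ext_jump (hE : Enum m p Js) (hL : Lvl p Js q) (hκ0 : κ 0 = false)
    (hκ : ∀ i, 1 ≤ i → i ≤ m → κ i = !κ (p i)) (hR3 : ∀ a t, R a t → t % 3 = 0)
    {i N : ℕ} {c : ℕ → Bool}
    {s G : ℕ → ℕ} (h : St p Js κ q R g i 0 N c s G) (him : i + 1 ≤ m) (hJ : i + 1 ∈ Js) :
    ∃ (N' : ℕ) (c' : ℕ → Bool) (s' G' : ℕ → ℕ), St p Js κ q R g (i + 1) (m + 1) N' c' s' G' := by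
  have hpi : p (i + 1) < i + 1 := hE.lt (i + 1) (by omega) him
  have hdec0 : ∀ j, p j ≤ i → dec p i 0 j := by
    intro j hj
    rcases hj.lt_or_eq with h1 | h1
    · exact Or.inl h1
    · exact Or.inr ⟨h1, Nat.zero_le _⟩
  obtain ⟨A, hA⟩ : ∃ A : Finset ℕ, A = Js.filter (fun j => i + 1 < j ∧ p j ≤ p (i + 1)) := ⟨_, rfl⟩
  have hAm : ∀ j, j ∈ A ↔ j ∈ Js ∧ i + 1 < j ∧ p j ≤ p (i + 1) := by
    intro j
    rw [hA, mem_filter]
  have hAd : ∀ j ∈ A, dec p i 0 j := by
    intro j hj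
    rw [hAm] at hj
    exact hdec0 j (by omega)
  have hA3 : ∀ j ∈ A, sig p κ c s G j % 3 = 0 := fun j hj =>
    hR3 _ _ (h.res j ((hAm j).1 hj).1 (hAd j hj))
  have hAi : ∀ y ∈ A, ∀ z ∈ A, sig p κ c s G y = sig p κ c s G z → y = z := fun y hy z hz =>
    h.inj y ((hAm y).1 hy).1 z ((hAm z).1 hz).1 (hAd y hy) (hAd z hz)
  have hlo := h.lo (i + 1) hJ (hdec0 _ (by omega))
  have hhi := h.hi (i + 1) hJ (hdec0 _ (by omega))
  have hPn : Pn p Js κ c s G (i + 1) =
      (A.filter (fun j => sig p κ c s G j < i + 1 + 2 * G (i + 1))).card := by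
    unfold Pn
    congr 1
    ext l
    rw [mem_filter, mem_filter, hAm]
    tauto
  have hC : (Js.filter (fun j => i < j ∧ dec p i 0 j ∧ sig p κ c s G j < N)).card ≤
      1 + (A.filter (fun j => sig p κ c s G j < N)).card := by
    have h1 : Js.filter (fun j => i < j ∧ dec p i 0 j ∧ sig p κ c s G j < N) ⊆
        insert (i + 1) (A.filter (fun j => sig p κ c s G j < N)) := by
      intro j hj
      rw [mem_filter] at hj
      obtain ⟨h1, h2, h3, h4⟩ := hj
      rw [mem_insert, mem_filter, hAm]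
      rcases (Nat.succ_le_of_lt h2).lt_or_eq with h5 | h5
      · refine Or.inr ⟨⟨h1, h5, ?_⟩, h4⟩
        have h6 : p j ≤ i := by rcases h3 with h6 | ⟨h6, _⟩ <;> omega
        exact hL.lam j h1 (i + 1) hJ (by omega) h5
      · exact Or.inl h5.symm
    have h2 := (card_le_card h1).trans (card_insert_le _ _)
    omega
  have hroom := h.room
  obtain ⟨k1, k2⟩ := key hA3 hAi (N := N) (k := i + 1) (W := Wt Js q g (i + 1)) (G := G (i + 1))
    (by omega) (by omega)
  have hbd := h.bd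
  obtain ⟨x, hx1, hx2⟩ : ∃ x, 2 ≤ x ∧
      cn c (!κ (i + 1)) N + x = cn κ (!κ (i + 1)) (i + 1) + G (i + 1) := by
    have h1 := hbd (!κ (i + 1))
    exact ⟨cn κ (!κ (i + 1)) (i + 1) + G (i + 1) - cn c (!κ (i + 1)) N, by omega, by omega⟩
  obtain ⟨y, hy1, hy2⟩ : ∃ y, 2 ≤ y ∧
      cn c (κ (i + 1)) N + y = cn κ (κ (i + 1)) (i + 1) + G (i + 1) := by
    have h1 := hbd (κ (i + 1))
    exact ⟨cn κ (κ (i + 1)) (i + 1) + G (i + 1) - cn c (κ (i + 1)) N, by omega, by omega⟩
  have hNL : N + (x + y) = i + 1 + 2 * G (i + 1) := by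
    have h1 := cn_add c (κ (i + 1)) N
    have h2 := cn_add κ (κ (i + 1)) (i + 1)
    omega
  -- the pattern of the fillers
  obtain ⟨z, hz1, hz2, hz3⟩ : ∃ z, z ≤ 2 ∧ (z = 0 ∨ (N + z - 1) % 3 ≠ 0) ∧
      (N + z + x - 1) % 3 ≠ 0 := by
    by_cases h0 : (N + 0 + x - 1) % 3 ≠ 0
    · exact ⟨0, by omega, Or.inl rfl, h0⟩
    · by_cases h1 : N % 3 ≠ 0
      · exact ⟨1, by omega, Or.inr (by omega), by omega⟩
      · exact ⟨2, by omega, Or.inr (by omega), by omega⟩
  obtain ⟨c', hc'⟩ : ∃ c' : ℕ → Bool, c' = (fun t => if t < N then c t else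
      if N + z ≤ t ∧ t < N + z + x then !κ (i + 1) else κ (i + 1)) := ⟨_, rfl⟩
  have c1 : ∀ t, t < N → c' t = c t := fun t ht => by rw [hc']; simp [ht]
  have c2 : ∀ t, N ≤ t → t < N + z → c' t = κ (i + 1) := fun t ht ht2 => by
    rw [hc']
    simp only
    rw [if_neg (by omega), if_neg (by omega)]
  have c3 : ∀ t, N + z ≤ t → t < N + z + x → c' t = !κ (i + 1) := fun t ht ht2 => by
    rw [hc']
    simp only
    rw [if_neg (by omega), if_pos ⟨ht, ht2⟩]
  have c4 : ∀ t, N + z + x ≤ t → c' t = κ (i + 1) := fun t ht => by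
    rw [hc']
    simp only
    rw [if_neg (by omega), if_neg (by omega)]
  have hcn : ∀ b t, t ≤ N → cn c' b t = cn c b t := fun b t ht =>
    cn_congr (fun u hu => c1 u (by omega)) b
  have hNxy : ∀ b, cn c' b (N + (x + y)) = cn κ b (i + 1) + G (i + 1) := by
    have a1 : cn c' (κ (i + 1)) (N + z) = cn c (κ (i + 1)) N + z := by
      rw [cn_const z (fun u h1 h2 => c2 u h1 h2), hcn _ N le_rfl]
    have a2 : cn c' (!κ (i + 1)) (N + z) = cn c (!κ (i + 1)) N := by
      rw [cn_const' z (fun u h1 h2 => c2 u h1 h2), hcn _ N le_rfl]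
    have a3 : cn c' (!κ (i + 1)) (N + z + x) = cn c (!κ (i + 1)) N + x := by
      rw [cn_const x (fun u h1 h2 => c3 u h1 h2), a2]
    have a4 : cn c' (κ (i + 1)) (N + z + x) = cn c (κ (i + 1)) N + z := by
      have := cn_const' x (fun u h1 h2 => c3 u h1 h2)
      rw [Bool.not_not] at this
      rw [this, a1]
    have a5 : cn c' (κ (i + 1)) (N + z + x + (y - z)) = cn c (κ (i + 1)) N + z + (y - z) := by
      rw [cn_const (y - z) (fun u h1 _ => c4 u h1), a4]
    have a6 : cn c' (!κ (i + 1)) (N + z + x + (y - z)) = cn c (!κ (i + 1)) N + x := by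
      rw [cn_const' (y - z) (fun u h1 _ => c4 u h1), a3]
    have a7 : N + z + x + (y - z) = N + (x + y) := by omega
    rw [a7] at a5 a6
    intro b
    by_cases hb : b = κ (i + 1)
    · rw [hb, a5]
      omega
    · have hb' : b = !κ (i + 1) := by
        clear * - hb
        revert hb
        cases κ (i + 1) <;> cases b <;> simp
      rw [hb', a6]
      omega
  refine ⟨N + (x + y) + 1, c', Function.update s (i + 1) (N + (x + y)), G,
    h.ext hE hκ0 hκ hL.one him (x + y) c' c1 (c4 _ (by omega)) (fun h1 => absurd hJ h1) ?_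
    (fun h1 => absurd hJ h1) (fun _ => hNxy) ?_⟩
  · intro k hk hk2 h1 h2
    have h3 := hR3 _ _ (h.res k hk (hdec0 k hk2))
    rcases Nat.lt_or_ge (sig p κ c s G k) (N + z) with h4 | h4
    · rw [c2 _ h1 h4]
      exact c2 _ (by omega) (by omega)
    · rcases Nat.lt_or_ge (sig p κ c s G k) (N + z + x) with h5 | h5
      · rw [c3 _ h4 h5]
        exact c3 _ (by omega) (by omega)
      · rw [c4 _ h5, c4 _ (by omega)]
  · intro b
    have h1 : (A.filter (fun j => sig p κ c s G j < i + 1 + 2 * G (i + 1))).card ≤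
        (Js.filter (fun j => i + 1 < j ∧ p j ≤ i ∧ sig p κ c s G j < N + (x + y) + 1)).card := by
      apply card_le_card
      intro j hj
      rw [mem_filter, hAm] at hj
      rw [mem_filter]
      exact ⟨hj.1.1, hj.1.2.1, by omega, by omega⟩
    rw [cn_succ, hNxy b, c4 _ (by omega), cn_succ κ b (i + 1), Wt_succ_of_mem hJ]
    split_ifs <;> omega

theorem St.all (hE : Enum m p Js) (hL : Lvl p Js q) (hκ0 : κ 0 = false)
    (hκ : ∀ i, 1 ≤ i → i ≤ m → κ i = !κ (p i))
    (hR3 : ∀ a t, R a t → t % 3 = 0) (hRd : ∀ a b t, R a t → R b t → a = b)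
    (hRg : ∀ a N, ∃ t, N ≤ t ∧ t < N + g a ∧ R a t) : ∀ i ≤ m,
    ∃ (N : ℕ) (c : ℕ → Bool) (s G : ℕ → ℕ), St p Js κ q R g i 0 N c s G := by
  intro i
  induction i with
  | zero =>
    intro _
    have hno : ∀ k ∈ Js, ¬ dec p 0 (m + 1) k := by
      rintro k hk (h1 | ⟨h1, h2⟩)
      · omega
      · have := (hE.sub k hk).2
        omega
    have h : St p Js κ q R g 0 (m + 1) 1 (fun _ => false) (fun _ => 0) (fun _ => 0) := by
      refine ⟨rfl, rfl, fun h => by omega, rfl, fun j l h1 h2 => by omega, ?_,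
        fun j h1 h2 => by omega, ?_, fun k hk hk2 => absurd hk2 (hno k hk),
        fun k hk hk2 => absurd hk2 (hno k hk), fun k hk hk2 => absurd hk2 (hno k hk),
        fun k hk _ _ hk2 => absurd hk2 (hno k hk), fun k hk hk2 => absurd hk2 (hno k hk),
        fun k hk hk2 => absurd hk2 (hno k hk), ?_⟩
      · intro j hj
        have : j = 0 := by omega
        rw [this, hκ0]
      · intro k hk hk0
        have := (hE.sub k hk).1
        omega
      · intro b
        have h1 : cn (fun _ => false) b 1 = cn κ b (0 + 1) :=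
          cn_congr (fun u hu => by rw [show u = 0 by omega, hκ0]) b
        rw [h1]
        omega
    obtain ⟨G', hG'⟩ := St.dec_all hE hL hκ hR3 hRd hRg (m + 1) _ h
    exact ⟨1, _, _, G', hG'⟩
  | succ i ih =>
    intro him
    obtain ⟨N, c, s, G, h⟩ := ih (by omega)
    obtain ⟨N', c', s', G', h'⟩ : ∃ (N' : ℕ) (c' : ℕ → Bool) (s' G' : ℕ → ℕ),
        St p Js κ q R g (i + 1) (m + 1) N' c' s' G' := by
      by_cases hJ : i + 1 ∈ Js
      · exact h.ext_jump hE hL hκ0 hκ hR3 him hJ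
      · exact h.ext_reg hE hκ0 hκ hL.one him hJ
    obtain ⟨G'', hG''⟩ := St.dec_all hE hL hκ hR3 hRd hRg (m + 1) _ h'
    exact ⟨N', c', s', G'', hG''⟩

end st

theorem wrd : WrdStm := by
  intro m p Js q R g hm hE hL hR3 hRd hRg
  obtain ⟨κ, hκ0, hκ⟩ := exists_class hE.lt
  obtain ⟨N, c, s, G, h⟩ := St.all hE hL hκ0 hκ hR3 hRd hRg m le_rfl
  have hdec : ∀ k ∈ Js, dec p m 0 k := by
    intro k hk
    have h1 := hE.sub k hk
    have h2 := hE.lt k h1.1 h1.2
    exact Or.inl (by omega)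
  have hsm : ∀ k ∈ Js, sg c s p k = sig p κ c s G k := by
    intro k hk
    have h1 := hE.sub k hk
    have h2 := hE.lt k h1.1 h1.2
    unfold sg sig
    rw [h.cls k h1.2, h.cls (p k) (by omega), h.ex k hk h1.2]
  have hlt : ∀ k ∈ Js, sig p κ c s G k < N := by
    intro k hk
    have h1 := hE.sub k hk
    have h2 := h.sig_le hE hκ hk h1.2
    have h3 := h.slt h1.2
    omega
  refine ⟨s m, c, s, ⟨h.c0, ?_, h.s0, rfl, h.mono, ?_, ?_, ?_, ?_⟩, ?_⟩
  · apply h.c1
    have h1 := h.mono 0 m (by omega) le_rfl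
    have h2 := h.hN
    omega
  · intro i hi1 hi2
    have h2 := hE.lt i hi1 hi2
    rw [h.cls i hi2, h.cls (p i) (by omega), hκ i hi1 hi2]
    cases κ (p i) <;> simp
  · intro i hi1 hi2 hiJ t ht1 ht2
    rw [h.cls i hi2]
    exact h.reg i hi1 hi2 hiJ t ht1 ht2
  · intro k hk l hl hkl
    rw [hsm k hk, hsm l hl] at hkl
    exact h.inj k hk l hl (hdec k hk) (hdec l hl) hkl
  · intro k hk
    rw [hsm k hk]
    rcases h.hole k hk (hdec k hk) (hlt k hk) with ⟨l, h3, h4, h5⟩ | ⟨h3, h4, h5⟩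
    · exact Or.inl ⟨l, h3, h5⟩
    · exact Or.inr ⟨h3, h4⟩
  · have h1 := h.room
    have h2 : Js.filter (fun j => m < j ∧ dec p m 0 j ∧ sig p κ c s G j < N) = ∅ := by
      rw [filter_eq_empty_iff]
      rintro j hj ⟨h3, _⟩
      have := (hE.sub j hj).2
      omega
    rw [h2, card_empty] at h1
    have h3 : Wt Js q g (m + 1) = ∑ k ∈ Js, (g (q k) + 3) := by
      unfold Wt
      congr 1
      rw [filter_eq_self]
      intro j hj
      have := (hE.sub j hj).2
      omega
    rw [h3] at h1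
    have h4 := h.hN
    omega

end Pool.Agent.TH56.CL
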